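import Pool.Agent.Helper395.BC.Base

/-!
# Brill-Noether loci: definitions

A smooth irreducible projective curve over `ℂ` is given by its function field `K`, see
`Pool/Agent/Helper395/CS/Defs.lean`; line bundles, their degrees and the genus `dim H¹(C, 𝒪_C)` are
the ones of `Pool/Agent/Helper395/CS/Defs.lean` and `Pool/Agent/Helper395/BC/Defs.lean`.
-/

namespace Pool.Agent.H607R3.BN

open Pool.Agent.Helper395.CS (IsCurve LineBundle)

/-- A smooth irreducible projective curve over `ℂ`, given by its function field: a finitely generated
extension field of `ℂ` of transcendence degree one. -/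
structure Curve where
  /-- the function field -/
  K : Type
  [field : Field K]
  [algebra : Algebra ℂ K]
  isCurve : IsCurve K

attribute [instance] Curve.field Curve.algebra

/-- The genus `dim H¹(C, 𝒪_C)`. -/
noncomputable def Curve.genus (C : Curve) : ℤ := Pool.Agent.Helper395.BC.genus C.K

/-- `h⁰(C, L)`, the dimension of the space of global sections of the line bundle `L`. -/
noncomputable def hZero {K : Type} [Field K] [Algebra ℂ K] (L : LineBundle K) : ℤ :=
  Module.finrank ℂ (Pool.Agent.Helper395.BC.H0 L)

/-- The curve `C` carries a `g^r_d`: there is a line bundle of degree `d` with `h⁰ ≥ r + 1`. -/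
def Curve.HasSeries (C : Curve) (r d : ℤ) : Prop :=
  ∃ L : LineBundle C.K, L.degree = d ∧ r + 1 ≤ hZero L

/-- The Brill-Noether locus `M^r_{g,d}`: the curves of genus `g` which carry a `g^r_d`. -/
def locus (g r d : ℤ) : Set Curve := {C | C.genus = g ∧ C.HasSeries r d}

/-- The Brill-Noether number `ρ(g, r, d) = g - (r + 1)(g - d + r)`. -/
def rho (g r d : ℤ) : ℤ := g - (r + 1) * (g - d + r)

end Pool.Agent.H607R3.BN
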