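import Pool.Agent.Helper395.BC.Pencil
import Pool.Agent.H607R3.BN.Defs

open scoped WithZero IntermediateField
open WithZero

set_option linter.unusedSectionVars false
set_option linter.unusedVariables false

namespace Pool.Agent.H607R3.BN

open Pool.Agent.Helper395.CS hiding genus
open Pool.Agent.Helper395.BC

variable {K : Type} [Field K] [Algebra ℂ K]

/-- stalkwise inclusion of line bundles -/
def Sub (L M : LineBundle K) : Prop := ∀ v s, s ∈ L.stalk v → s ∈ M.stalk v

theorem sub_iff {L M : LineBundle K} :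
    Sub L M ↔ ∀ v : Point K, v.val (L.frame v : K) ≤ v.val (M.frame v : K) := by
  constructor
  · intro h v
    exact h v (L.frame v) (le_refl (v.val (L.frame v : K)))
  · intro h v s hs
    exact le_trans (show v.val s ≤ v.val (L.frame v : K) from hs) (h v)

theorem Sub.refl (L : LineBundle K) : Sub L L := fun _ _ h => h

theorem Sub.trans {L M N : LineBundle K} (h : Sub L M) (h' : Sub M N) : Sub L N :=
  fun v s hs => h' v s (h v s hs)

theorem lmul_comm_stalk (L M : LineBundle K) (v : Point K) :
    (lmul L M).stalk v = (lmul M L).stalk v := by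
  ext s
  rw [mem_lmul, mem_lmul, mul_comm]

theorem hZero_congr {L M : LineBundle K} (h : ∀ v, L.stalk v = M.stalk v) : hZero L = hZero M := by
  rw [hZero, hZero, H0_congr h]

theorem H0_fin (hK : IsCurve K) (hg : genus K ≠ 0) (L : LineBundle K) :
    FiniteDimensional ℂ (H0 L) := (rrL hK hg L).1

theorem rrZ (hK : IsCurve K) (hg : genus K ≠ 0) (L : LineBundle K) :
    hZero L = hZero (lmul (can hK hg) (linv L)) + L.degree + 1 - genus K := by
  have := (rrL hK hg L).2
  unfold hZero
  omega

theorem hZero_nonneg (L : LineBundle K) : 0 ≤ hZero L := by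
  unfold hZero; positivity

theorem hZero_mono (hK : IsCurve K) (hg : genus K ≠ 0) {L M : LineBundle K} (h : Sub L M) :
    hZero L ≤ hZero M := by
  have := H0_fin hK hg M
  unfold hZero
  exact_mod_cast Submodule.finrank_mono (H0_mono h)

theorem hZero_eq_zero (hK : IsCurve K) {L : LineBundle K} (h : L.degree < 0) : hZero L = 0 := by
  unfold hZero
  rw [H0_eq_bot hK h, finrank_bot]
  rfl

/-- Riemann-Roch in large degree -/
theorem rr_large (hK : IsCurve K) (hg : genus K ≠ 0) {L : LineBundle K}
    (h : 2 * (genus K : ℤ) - 1 ≤ L.degree) : hZero L = L.degree + 1 - genus K := by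
  have h1 := rrZ hK hg L
  rw [hZero_eq_zero hK (L := lmul (can hK hg) (linv L)) (by
    rw [lmul_degree, linv_degree, can_degree]; omega)] at h1
  omega

/-- `h⁰` drops at most by the degree -/
theorem hZero_le (hK : IsCurve K) (hg : genus K ≠ 0) {L M : LineBundle K} (h : Sub L M) :
    hZero M ≤ hZero L + (M.degree - L.degree) := by
  have h1 := rrZ hK hg L
  have h2 := rrZ hK hg M
  have h3 : Sub (lmul (can hK hg) (linv M)) (lmul (can hK hg) (linv L)) := by
    intro v s hs
    rw [mem_lmul_linv] at hs ⊢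
    change v.val _ ≤ _ at hs ⊢
    rw [map_mul] at hs ⊢
    exact (mul_le_mul_right (sub_iff.1 h v) _).trans hs
  have h4 := hZero_mono hK hg h3
  omega

/-- the twist by a rational function -/
noncomputable def lscale (hK : IsCurve K) (L : LineBundle K) {f : K} (hf : f ≠ 0) : LineBundle K :=
  lmul L (lprin hK (Units.mk0 f hf))

theorem mem_lscale (hK : IsCurve K) (L : LineBundle K) {f : K} (hf : f ≠ 0) (v : Point K) (s : K) :
    s ∈ (lscale hK L hf).stalk v ↔ s / f ∈ L.stalk v := by
  rw [lscale, mem_lmul]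
  change v.val s ≤ v.val (L.frame v : K) * v.val f ↔ v.val (s / f) ≤ v.val (L.frame v : K)
  rw [map_div₀, div_le_iff₀ (zero_lt_iff.2 (v.val_ne_zero hf))]

theorem lscale_frame (hK : IsCurve K) (L : LineBundle K) {f : K} (hf : f ≠ 0) (v : Point K) :
    ((lscale hK L hf).frame v : K) = L.frame v * f := rfl

theorem lscale_degree (hK : IsCurve K) (L : LineBundle K) {f : K} (hf : f ≠ 0) :
    (lscale hK L hf).degree = L.degree := by
  rw [lscale, lmul_degree, lprin_degree, add_zero]

theorem mem_H0_lscale (hK : IsCurve K) (L : LineBundle K) {f : K} (hf : f ≠ 0) (s : K) :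
    s ∈ H0 (lscale hK L hf) ↔ s / f ∈ H0 L := by
  change (∀ v, _) ↔ ∀ v, _
  simp only [mem_lscale]

theorem hZero_lscale (hK : IsCurve K) (L : LineBundle K) {f : K} (hf : f ≠ 0) :
    hZero (lscale hK L hf) = hZero L := by
  let e : H0 L ≃ₗ[ℂ] H0 (lscale hK L hf) :=
    { toFun := fun s => ⟨s.1 * f, (mem_H0_lscale hK L hf _).2 (by
        rw [mul_div_cancel_right₀ _ hf]; exact s.2)⟩
      invFun := fun s => ⟨s.1 / f, (mem_H0_lscale hK L hf _).1 s.2⟩
      left_inv := fun s => Subtype.ext (mul_div_cancel_right₀ _ hf)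
      right_inv := fun s => Subtype.ext (div_mul_cancel₀ _ hf)
      map_add' := fun s t => Subtype.ext (add_mul _ _ _)
      map_smul' := fun c s => Subtype.ext (smul_mul_assoc _ _ _) }
  unfold hZero
  rw [e.finrank_eq]

theorem exists_section (hK : IsCurve K) {L : LineBundle K} (h : 0 < hZero L) :
    ∃ s ∈ H0 L, s ≠ 0 := by
  unfold hZero at h
  have h1 : 0 < Module.finrank ℂ (H0 L) := by exact_mod_cast h
  have := Module.finite_of_finrank_pos h1
  rw [Module.finrank_pos_iff_exists_ne_zero] at h1
  obtain ⟨f, hf⟩ := h1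
  exact ⟨f.1, f.2, by simpa using hf⟩

/-- effective line bundles -/
def Eff (L : LineBundle K) : Prop := (1 : K) ∈ H0 L

theorem eff_iff {L : LineBundle K} : Eff L ↔ ∀ v : Point K, 1 ≤ v.val (L.frame v : K) := by
  change (∀ v : Point K, v.val 1 ≤ v.val (L.frame v : K)) ↔ _
  simp only [map_one]

/-- an effective representative -/
theorem exists_eff (hK : IsCurve K) (L : LineBundle K) {s : K} (hs : s ∈ H0 L) (hs0 : s ≠ 0) :
    Eff (lscale hK L (inv_ne_zero hs0)) := by
  rw [Eff, mem_H0_lscale, one_div, inv_inv]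
  exact hs

theorem degree_mono (hK : IsCurve K) {L M : LineBundle K} (h : Sub L M) : L.degree ≤ M.degree :=
  ldegree_le hK h

theorem eff_degree (hK : IsCurve K) {L : LineBundle K} (h : Eff L) : 0 ≤ L.degree :=
  degree_nonneg_of_section hK h one_ne_zero

/-- the residue functional: vanishing at `v` relative to `ℓ` is at most one condition -/
theorem finrank_vanish (hK : IsCurve K) (v : Point K) (U U' : Submodule ℂ K)
    [FiniteDimensional ℂ U] {l : K} (hl : l ≠ 0) (hU : ∀ u ∈ U, v.val u ≤ v.val l)
    (hU' : ∀ u ∈ U, v.val u < v.val l → u ∈ U') (hle : U' ≤ U) :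
    Module.finrank ℂ U ≤ Module.finrank ℂ U' + 1 := by
  have hpos : 0 < v.val l := zero_lt_iff.2 (v.val_ne_zero hl)
  have hint : ∀ u : U, v.val (u.1 / l) ≤ 1 := fun u => by
    rw [map_div₀]
    exact (div_le_one₀ hpos).2 (hU u.1 u.2)
  let φ : U →ₗ[ℂ] ℂ :=
    { toFun := fun u => resHom hK v ⟨u.1 / l, hint u⟩
      map_add' := by
        intro a b
        rw [← map_add]
        congr 1
        exact Subtype.ext (add_div _ _ _)
      map_smul' := by
        intro c a
        have h1 : (⟨(c • a).1 / l, hint (c • a)⟩ : v.val.integer) =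
            ⟨algebraMap ℂ K c, v.const_le c⟩ * ⟨a.1 / l, hint a⟩ := by
          apply Subtype.ext
          change (c • a.1) / l = algebraMap ℂ K c * (a.1 / l)
          rw [Algebra.smul_def, mul_div_assoc]
        rw [h1, map_mul, resHom_const]
        rfl }
  have hker : ∀ u : U, u ∈ LinearMap.ker φ → u.1 ∈ U' := by
    intro u hu
    have h1 : resHom hK v ⟨u.1 / l, hint u⟩ = 0 := hu
    rw [resHom_eq_zero_iff] at h1
    apply hU' _ u.2
    change v.val (u.1 / l) < 1 at h1
    rwa [map_div₀, div_lt_one₀ hpos] at h1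
  have : FiniteDimensional ℂ U' := Submodule.finiteDimensional_of_le hle
  have h2 := LinearMap.finrank_range_add_finrank_ker φ
  have h3 : Module.finrank ℂ (LinearMap.range φ) ≤ 1 := by
    have := Submodule.finrank_le (LinearMap.range φ)
    rwa [Module.finrank_self] at this
  have h4 : Module.finrank ℂ (LinearMap.ker φ) ≤ Module.finrank ℂ U' := by
    let ψ : LinearMap.ker φ →ₗ[ℂ] U' :=
      { toFun := fun u => ⟨u.1.1, hker u.1 u.2⟩
        map_add' := fun _ _ => rfl
        map_smul' := fun _ _ => rfl }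
    apply LinearMap.finrank_le_finrank_of_injective (f := ψ)
    intro a b hab
    have : a.1.1 = b.1.1 := congrArg (fun z : U' => (z : K)) hab
    exact Subtype.ext (Subtype.ext this)
  omega

/-- adding base points -/
theorem exists_add (hK : IsCurve K) (hg : genus K ≠ 0) (L : LineBundle K) (n : ℕ) :
    ∃ M : LineBundle K, Sub L M ∧ M.degree = L.degree + n := by
  obtain ⟨v⟩ := point_nonempty hK
  induction n with
  | zero => exact ⟨L, Sub.refl L, by simp⟩
  | succ n ih =>
    obtain ⟨M, h1, h2⟩ := ih
    exact ⟨lmul M (lpt v), h1.trans (le_lmul_lpt M v), by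
      rw [lmul_degree, lpt_degree, h2]; push_cast; ring⟩

end Pool.Agent.H607R3.BN
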