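import Pool.Agent.H607R3.BN.Generic

open scoped WithZero IntermediateField
open WithZero

set_option linter.unusedSectionVars false
set_option linter.unusedVariables false

namespace Pool.Agent.H607R3.BN

open Pool.Agent.Helper395.CS hiding genus
open Pool.Agent.Helper395.BC

variable {K : Type} [Field K] [Algebra ℂ K]

theorem ord_add_ge (v : Point K) {a b : K} (ha : a ≠ 0) (hb : b ≠ 0) (hab : a + b ≠ 0) :
    min (v.ord a) (v.ord b) ≤ v.ord (a + b) := by
  have h1 := v.val.map_add a b
  rw [v.val_eq_exp ha, v.val_eq_exp hb, v.val_eq_exp hab, le_max_iff, exp_le_exp, exp_le_exp] at h1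
  omega

/-- the restriction of a point to a subfield, with the ramification index -/
theorem exists_restrict (M : IntermediateField ℂ K) (v : Point K) {t : K} (htM : t ∈ M)
    (ht0 : t ≠ 0) (htv : 0 < v.ord t) :
    ∃ (P : Point M) (e : ℕ), 1 ≤ e ∧ ∀ z : M, v.ord (z : K) = e * P.ord z := by
  classical
  have hex : ∃ n : ℕ, 0 < n ∧ ∃ z : M, (z : K) ≠ 0 ∧ v.ord (z : K) = n :=
    ⟨(v.ord t).toNat, by omega, ⟨t, htM⟩, ht0, by
      change v.ord t = _
      omega⟩
  obtain ⟨he, π, hπ0, hπ⟩ := Nat.find_spec hex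
  set e := Nat.find hex with hedef
  have hdiv : ∀ z : M, (e : ℤ) ∣ v.ord (z : K) := by
    intro z
    by_cases hz : (z : K) = 0
    · rw [hz, v.ord_zero]; exact dvd_zero _
    by_contra hnd
    have hr0 : 0 ≤ v.ord (z : K) % e := Int.emod_nonneg _ (by omega)
    have hr1 : v.ord (z : K) % e < e := Int.emod_lt_of_pos _ (by omega)
    have hr2 : v.ord (z : K) % e ≠ 0 := fun h => hnd (Int.dvd_of_emod_eq_zero h)
    have hzpow : ∀ m : ℤ, v.ord ((π : K) ^ m) = m * e := by
      intro m
      cases m with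
      | ofNat m =>
        rw [Int.ofNat_eq_natCast, zpow_natCast, v.ord_pow, hπ]
      | negSucc m =>
        rw [zpow_negSucc, v.ord_inv, v.ord_pow, hπ]
        simp only [Int.negSucc_eq]
        push_cast; ring
    have h1 : v.ord ((z * π ^ (-(v.ord (z : K) / e)) : M) : K) = v.ord (z : K) % e := by
      have h2 : ((z * π ^ (-(v.ord (z : K) / e)) : M) : K) =
          (z : K) * (π : K) ^ (-(v.ord (z : K) / e)) := by
        push_cast
        rfl
      rw [h2, v.ord_mul hz (zpow_ne_zero _ hπ0), hzpow]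
      have := Int.emod_add_mul_ediv (v.ord (z : K)) e
      linarith
    have h3 : ((z * π ^ (-(v.ord (z : K) / e)) : M) : K) ≠ 0 := by
      push_cast
      exact mul_ne_zero hz (zpow_ne_zero _ hπ0)
    have h4 : (v.ord (z : K) % e).toNat < e := by omega
    exact Nat.find_min hex h4 ⟨by omega, _, h3, by rw [h1]; omega⟩
  have hcoe : ∀ z : M, z ≠ 0 → (z : K) ≠ 0 := fun z hz h => hz (Subtype.ext h)
  let val' : Valuation M ℤᵐ⁰ :=
    { toFun := fun z => if z = 0 then 0 else exp (-(v.ord (z : K) / e))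
      map_zero' := if_pos rfl
      map_one' := by
        rw [if_neg one_ne_zero]
        change exp (-(v.ord (1 : K) / (e : ℤ))) = 1
        rw [v.ord_one]
        simp
      map_mul' := by
        intro a b
        by_cases ha : a = 0
        · simp [ha]
        by_cases hb : b = 0
        · simp [hb]
        rw [if_neg ha, if_neg hb, if_neg (mul_ne_zero ha hb), ← exp_add]
        congr 1
        change -(v.ord ((a : K) * b) / (e : ℤ)) = _
        rw [v.ord_mul (hcoe a ha) (hcoe b hb), Int.add_ediv_of_dvd_left (hdiv a)]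
        ring
      map_add_le_max' := by
        intro a b
        by_cases hab : a + b = 0
        · simp [hab]
        by_cases ha : a = 0
        · rw [ha, zero_add, if_pos rfl]; exact le_max_right _ _
        by_cases hb : b = 0
        · rw [hb, add_zero]; exact le_max_left _ _
        rw [if_neg ha, if_neg hb, if_neg hab, le_max_iff, exp_le_exp, exp_le_exp]
        have h1 := ord_add_ge v (hcoe a ha) (hcoe b hb) (hcoe _ hab)
        have he' : (0 : ℤ) ≤ e := by positivity
        rcases min_le_iff.1 h1 with h2 | h2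
        · left
          have := Int.ediv_le_ediv (by omega : (0 : ℤ) < e) h2
          change -(v.ord ((a : K) + b) / (e : ℤ)) ≤ -(v.ord (a : K) / e)
          omega
        · right
          have := Int.ediv_le_ediv (by omega : (0 : ℤ) < e) h2
          change -(v.ord ((a : K) + b) / (e : ℤ)) ≤ -(v.ord (b : K) / e)
          omega }
  have hval' : ∀ z : M, val' z = if z = 0 then 0 else exp (-(v.ord (z : K) / e)) := fun _ => rfl
  have he0 : (e : ℤ) ≠ 0 := by omega
  let P : Point M :=
    { val := val'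
      surj := by
        intro y
        rcases eq_or_ne y 0 with rfl | hy
        · exact ⟨0, map_zero _⟩
        · have hπ0' : π ≠ 0 := fun h => hπ0 (by rw [h]; rfl)
          refine ⟨π ^ (-log y), ?_⟩
          rw [map_zpow₀, hval', if_neg hπ0', hπ, Int.ediv_self he0, ← exp_zsmul]
          simp [exp_log hy]
      const := by
        intro c hc
        rw [hval', if_neg ((map_ne_zero _).2 hc)]
        change exp (-(v.ord (algebraMap ℂ K c) / (e : ℤ))) = 1
        rw [v.ord_const]
        simp }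
  refine ⟨P, e, he, fun z => ?_⟩
  by_cases hz : z = 0
  · rw [hz]
    change v.ord 0 = _
    rw [v.ord_zero, P.ord_zero, mul_zero]
  · have h1 : P.ord z = v.ord (z : K) / e := by
      change -log (val' z) = _
      rw [hval', if_neg hz, log_exp, neg_neg]
    rw [h1, Int.mul_ediv_cancel' (hdiv z)]

section deg

variable (hK : IsCurve K) (M : IntermediateField ℂ K) {x : K} (hxM : x ∈ M)
  (ht : Transcendental ℂ x)

include hK ht hxM

theorem isCurve_sub : IsCurve M ∧ Module.finrank ℂ⟮x⟯ K =
    Module.finrank ℂ⟮(⟨x, hxM⟩ : M)⟯ M * Module.finrank M K := by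
  have hle : ℂ⟮x⟯ ≤ M := IntermediateField.adjoin_simple_le_iff.2 hxM
  have hfin := hK.finiteDimensional ht
  letI i1 : Algebra ℂ⟮x⟯ M := (IntermediateField.inclusion hle).toAlgebra
  haveI i2 : IsScalarTower ℂ ℂ⟮x⟯ M := IsScalarTower.of_algebraMap_eq fun c => rfl
  haveI i3 : IsScalarTower ℂ⟮x⟯ M K := IsScalarTower.of_algebraMap_eq fun c => rfl
  haveI i4 : Module.Finite ℂ⟮x⟯ M :=
    Module.Finite.of_injective (IsScalarTower.toAlgHom ℂ⟮x⟯ M K).toLinearMap
      (algebraMap M K).injective
  haveI i5 : Module.Finite M K := Module.Finite.of_restrictScalars_finite ℂ⟮x⟯ M K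
  refine ⟨⟨?_, ?_⟩, ?_⟩
  · rw [IntermediateField.fg_top_iff]
    have h2 : Algebra.EssFiniteType ℂ ℂ⟮x⟯ := IntermediateField.essFiniteType_iff.2 ⟨{x}, by simp⟩
    exact Algebra.EssFiniteType.comp ℂ ℂ⟮x⟯ M
  · have h1 := trdeg_add_eq ℂ M (A := K)
    haveI : Algebra.IsAlgebraic M K := Algebra.IsAlgebraic.of_finite _ _
    rw [trdeg_eq_zero (R := M), add_zero, hK.trdeg] at h1
    exact h1
  · rw [← Module.finrank_mul_finrank ℂ⟮x⟯ M K]
    congr 1
    have hmap : (ℂ⟮(⟨x, hxM⟩ : M)⟯).map M.val = ℂ⟮x⟯ := by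
      rw [IntermediateField.adjoin_map, Set.image_singleton]
      rfl
    let e : ℂ⟮(⟨x, hxM⟩ : M)⟯ ≃ₐ[ℂ] ℂ⟮x⟯ :=
      (IntermediateField.equivMap ℂ⟮(⟨x, hxM⟩ : M)⟯ M.val).trans (IntermediateField.equivOfEq hmap)
    refine (Algebra.finrank_eq_of_equiv_equiv e.toRingEquiv (RingEquiv.refl M) ?_).symm
    ext z
    rfl

end deg

/-- two points of `K` (possibly equal) over the same point of a proper subfield -/
theorem exists_pair (hK : IsCurve K) (M : IntermediateField ℂ K) (hM : M ≠ ⊤) {x : K}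
    (hxM : x ∈ M) (ht : Transcendental ℂ x) (c : ℂ) :
    ∃ p q : Point K, p.val (x - algebraMap ℂ K c) < 1 ∧ q.val (x - algebraMap ℂ K c) < 1 ∧
      (p ≠ q → ∀ z ∈ M, p.val z < 1 → q.val z < 1) ∧
      (p = q → ∀ z ∈ M, p.val z < 1 → p.val z ≤ exp (-2)) := by
  classical
  have hxc : Transcendental ℂ (x - algebraMap ℂ K c) := by
    intro h
    apply ht
    have := h.add (isAlgebraic_algebraMap (A := K) c)
    rwa [sub_add_cancel] at this
  set t := x - algebraMap ℂ K c with htdef
  have htM : t ∈ M := sub_mem hxM (M.algebraMap_mem c)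
  have ht0 := ne_zero_of_transcendental hxc
  obtain ⟨hMc, hdeg⟩ := isCurve_sub hK M htM hxc
  have hfin := hK.finiteDimensional hxc
  have htM' : Transcendental ℂ (⟨t, htM⟩ : M) := by
    rintro ⟨p, hp, hp0⟩
    refine hxc ⟨p, hp, ?_⟩
    have := congrArg M.val hp0
    rw [← Polynomial.aeval_algHom_apply, map_zero] at this
    exact this
  have hfinM := hMc.finiteDimensional htM'
  have hrel : Module.finrank M K ≠ 1 := by
    rw [Ne, IntermediateField.finrank_eq_one_iff_eq_top]
    exact hM
  obtain ⟨S, hS, hsum⟩ := zero_count_aux hK hxc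
  obtain ⟨T, hT, hsumT⟩ := zero_count_aux hMc htM'
  have hSpos : ∀ v : S, 0 < v.1.ord t := fun v => (v.1.val_lt_one_iff ht0).1 ((hS v.1).1 v.2)
  choose P e he hPe using fun v : S => exists_restrict M v.1 htM ht0 (hSpos v)
  have hval : ∀ (v : S) (z : K) (hz : z ∈ M), v.1.val z < 1 ↔ (P v).val ⟨z, hz⟩ < 1 := by
    intro v z hz
    by_cases hz0 : z = 0
    · subst hz0
      have : (⟨0, hz⟩ : M) = 0 := rfl
      rw [map_zero, this, map_zero]
    · have hz0' : (⟨z, hz⟩ : M) ≠ 0 := fun h => hz0 (congrArg Subtype.val h)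
      rw [v.1.val_lt_one_iff hz0, (P v).val_lt_one_iff hz0']
      have h1 := hPe v ⟨z, hz⟩
      have h2 : (0 : ℤ) < e v := by exact_mod_cast he v
      change v.1.ord z = _ at h1
      rw [h1]
      exact mul_pos_iff_of_pos_left h2
  by_contra hcon
  push Not at hcon
  -- unramified
  have he1 : ∀ v : S, e v = 1 := by
    intro v
    by_contra hne
    have hv := (hS v.1).1 v.2
    obtain ⟨-, z, hzM, hz1, hz2⟩ := hcon v.1 v.1 hv hv (fun h => absurd rfl h)
    have hz0 : z ≠ 0 := by
      rintro rfl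
      rw [map_zero] at hz2
      exact absurd hz2 (by simp)
    have hz0' : (⟨z, hzM⟩ : M) ≠ 0 := fun h => hz0 (congrArg Subtype.val h)
    have h1 := (hval v z hzM).1 hz1
    rw [(P v).val_lt_one_iff hz0'] at h1
    have h2 := hPe v ⟨z, hzM⟩
    change v.1.ord z = _ at h2
    rw [v.1.val_eq_exp hz0, exp_lt_exp, h2] at hz2
    have h3 := he v
    have h4 : (2 : ℤ) ≤ e v := by
      have : 2 ≤ e v := by omega
      exact_mod_cast this
    nlinarith
  have hinj : Function.Injective P := by
    intro v w hvw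
    by_contra hne
    have hne' : v.1 ≠ w.1 := fun h => hne (Subtype.ext h)
    have := hcon v.1 w.1 ((hS v.1).1 v.2) ((hS w.1).1 w.2) (fun _ z hz h => by
      rw [hval w z hz, ← hvw, ← hval v z hz]
      exact h)
    exact hne' this.1
  have hle : ∑ v ∈ S, v.ord t ≤ ∑ Q ∈ T, Q.ord (⟨t, htM⟩ : M) := by
    rw [← Finset.sum_coe_sort S]
    have h1 : ∀ v : S, v.1.ord t = (P v).ord ⟨t, htM⟩ := by
      intro v
      have := hPe v ⟨t, htM⟩
      rw [he1 v, Nat.cast_one, one_mul] at this
      exact this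
    rw [Finset.sum_congr rfl fun v _ => h1 v]
    rw [← Finset.sum_image (f := fun Q : Point M => Q.ord (⟨t, htM⟩ : M)) (g := P)
      (fun a _ b _ hab => hinj hab)]
    apply Finset.sum_le_sum_of_subset_of_nonneg
    · intro Q hQ
      rw [Finset.mem_image] at hQ
      obtain ⟨v, -, rfl⟩ := hQ
      rw [hT, ← hval v t htM]
      exact (hS v.1).1 v.2
    · intro Q hQ _
      rw [hT, Q.val_lt_one_iff (ne_zero_of_transcendental htM')] at hQ
      exact hQ.le
  rw [hsum, hsumT, hdeg] at hle
  have h1 : 0 < Module.finrank ℂ⟮(⟨t, htM⟩ : M)⟯ M := Module.finrank_pos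
  have h2 : 0 < Module.finrank ℂ⟮t⟯ K := Module.finrank_pos
  rw [hdeg] at h2
  have h3 : 2 ≤ Module.finrank M K := by
    have : Module.finrank M K ≠ 0 := by
      intro h
      rw [h, mul_zero] at h2
      exact lt_irrefl _ h2
    omega
  have h4 : Module.finrank ℂ⟮(⟨t, htM⟩ : M)⟯ M * Module.finrank M K ≤
      Module.finrank ℂ⟮(⟨t, htM⟩ : M)⟯ M := by exact_mod_cast hle
  nlinarith

end Pool.Agent.H607R3.BN
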