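import Pool.Agent.H607R3.BN.GenusBound
import Pool.Agent.H607R3.BN.Restrict

open scoped WithZero IntermediateField
open WithZero

set_option linter.unusedSectionVars false
set_option linter.unusedVariables false

namespace Pool.Agent.H607R3.BN

open Pool.Agent.Helper395.CS hiding genus
open Pool.Agent.Helper395.BC

variable {K : Type} [Field K] [Algebra ℂ K]

theorem lsub_frame_self (L : LineBundle K) (v : Point K) :
    v.val ((lsub L v).frame v : K) = v.val (L.frame v : K) * exp (-1) := by
  change v.val ((L.frame v * ((lpt v).frame v)⁻¹ : Kˣ) : K) = _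
  rw [Units.val_mul, map_mul, Units.val_inv_eq_inv_val, lpt_frame_self, inv_inv, val_unif]

theorem lsub_frame_ne (L : LineBundle K) {v w : Point K} (h : w ≠ v) :
    w.val ((lsub L v).frame w : K) = w.val (L.frame w : K) := by
  change w.val ((L.frame w * ((lpt v).frame w)⁻¹ : Kˣ) : K) = _
  rw [Units.val_mul, map_mul, Units.val_inv_eq_inv_val, lpt_frame_ne h, Units.val_one, inv_one,
    map_one, mul_one]

theorem lsub_sub (L : LineBundle K) (v : Point K) : Sub (lsub L v) L := by
  rw [sub_iff]
  intro w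
  rcases eq_or_ne w v with rfl | h
  · rw [lsub_frame_self]
    apply mul_le_of_le_one_right'
    rw [← exp_zero, exp_le_exp]
    norm_num
  · rw [lsub_frame_ne L h]

/-- the elements of `U` vanishing at `p` -/
def vanish (p : Point K) (U : Submodule ℂ K) : Submodule ℂ K where
  carrier := {u | u ∈ U ∧ p.val u < 1}
  add_mem' := by
    rintro a b ⟨ha, ha'⟩ ⟨hb, hb'⟩
    exact ⟨add_mem ha hb, Valuation.map_add_lt _ ha' hb'⟩
  zero_mem' := ⟨zero_mem _, by rw [map_zero]; exact zero_lt_one⟩
  smul_mem' := by
    rintro c u ⟨hu, hu'⟩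
    refine ⟨Submodule.smul_mem _ _ hu, ?_⟩
    rw [Algebra.smul_def, map_mul]
    exact (mul_le_of_le_one_left' (p.const_le _)).trans_lt hu'

theorem mem_vanish {p : Point K} {U : Submodule ℂ K} {u : K} :
    u ∈ vanish p U ↔ u ∈ U ∧ p.val u < 1 := Iff.rfl

/-- the inductive construction for a series composed with an involution -/
theorem exists_step (hK : IsCurve K) (L : LineBundle K) (hL : Eff L)
    (W : Submodule ℂ K) [FiniteDimensional ℂ W] (h1 : (1 : K) ∈ W) (hWL : W ≤ H0 L)
    {x : K} (hxW : x ∈ W) (ht : Transcendental ℂ x)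
    (hx : ∀ w ∈ W, ∀ v : Point K, v.val w ≤ max 1 (v.val x))
    (hM : IntermediateField.adjoin ℂ (W : Set K) ≠ ⊤) (k : ℕ) :
    ∃ (Lk : LineBundle K) (U : Submodule ℂ K) (S : Finset ℂ), U ≤ W ∧ U ≤ H0 Lk ∧
      Lk.degree = L.degree - 2 * k ∧ Module.finrank ℂ W ≤ Module.finrank ℂ U + k ∧
      ∀ v : Point K, (∀ c ∈ S, ¬ v.val (x - algebraMap ℂ K c) < 1) →
        v.val (Lk.frame v : K) = v.val (L.frame v : K) := by
  classical
  rw [eff_iff] at hL
  have hWM : ∀ w ∈ W, w ∈ IntermediateField.adjoin ℂ (W : Set K) := fun w hw =>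
    IntermediateField.subset_adjoin ℂ (W : Set K) hw
  induction k with
  | zero => exact ⟨L, W, ∅, le_rfl, hWL, by simp, by simp, fun v _ => rfl⟩
  | succ k ih =>
    obtain ⟨Lk, U, S, hUW, hUL, hdeg, hrank, hframe⟩ := ih
    obtain ⟨c, hc⟩ := Infinite.exists_notMem_finset S
    obtain ⟨p, q, hp, hq, hne, heq⟩ := exists_pair hK _ hM (hWM x hxW) ht c
    have hover : ∀ w : Point K, w.val (x - algebraMap ℂ K c) < 1 →
        ∀ c' ∈ S, ¬ w.val (x - algebraMap ℂ K c') < 1 := by
      intro w hw c' hc' hw'
      rw [point_injective hw hw'] at hc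
      exact hc hc'
    have hfp : 1 ≤ p.val (Lk.frame p : K) := by
      rw [hframe p (hover p hp)]; exact hL p
    have hfq : 1 ≤ q.val (Lk.frame q : K) := by
      rw [hframe q (hover q hq)]; exact hL q
    have hUfin : FiniteDimensional ℂ U := Submodule.finiteDimensional_of_le hUW
    refine ⟨lsub (lsub Lk p) q, vanish p U, insert c S, fun u hu => hUW hu.1, ?_, ?_, ?_, ?_⟩
    · rintro u ⟨hu, hup⟩ w
      have huM := hWM u (hUW hu)
      by_cases hwq : w = q
      · subst hwq
        rw [mem_lsub_self]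
        by_cases hpw : p = w
        · subst hpw
          rw [lsub_frame_self]
          have h3 := heq rfl u huM hup
          refine h3.trans_lt ?_
          have h4 : exp (-2 : ℤ) < exp (-1) := by rw [exp_lt_exp]; norm_num
          refine h4.trans_le ?_
          exact le_mul_of_one_le_left' hfp
        · rw [lsub_frame_ne Lk (Ne.symm hpw)]
          exact (hne hpw u huM hup).trans_le hfq
      · rw [mem_lsub_ne _ hwq]
        by_cases hwp : w = p
        · subst hwp
          rw [mem_lsub_self]
          exact hup.trans_le hfp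
        · rw [mem_lsub_ne _ hwp]
          exact hUL hu w
    · rw [lsub_degree, lsub_degree, hdeg]
      push_cast; ring
    · have hxp : p.val x ≤ 1 := val_x_le hp
      have h3 := finrank_vanish hK p U (vanish p U) one_ne_zero (fun u hu => by
        rw [map_one]
        have := hx u (hUW hu) p
        rwa [max_eq_left hxp] at this) (fun u hu hlt => ⟨hu, by rwa [map_one] at hlt⟩)
        (fun u hu => hu.1)
      omega
    · intro v hv
      have hvp : v ≠ p := by
        rintro rfl
        exact hv c (Finset.mem_insert_self _ _) hp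
      have hvq : v ≠ q := by
        rintro rfl
        exact hv c (Finset.mem_insert_self _ _) hq
      rw [lsub_frame_ne _ hvq, lsub_frame_ne _ hvp]
      exact hframe v fun c' hc' => hv c' (Finset.mem_insert_of_mem hc')

/-- If the genus is larger than `(d - r)(d - r + 1) / 2`, a `g^r_d` induces a `g^s_{d - 2(r - s)}`. -/
theorem composed (hK : IsCurve K) (hg : genus K ≠ 0) (L : LineBundle K) (r s : ℤ)
    (hs : 1 ≤ s) (hsr : s ≤ r) (hL : r + 1 ≤ hZero L)
    (hgen : (L.degree - r) * (L.degree - r + 1) < 2 * (genus K : ℤ)) :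
    ∃ L' : LineBundle K, L'.degree = L.degree - 2 * (r - s) ∧ s + 1 ≤ hZero L' := by
  classical
  obtain ⟨s0, hs0, hs0'⟩ := exists_section hK (L := L) (by omega)
  set L1 := lscale hK L (inv_ne_zero hs0') with hL1
  have hE : Eff L1 := exists_eff hK L hs0 hs0'
  have hd1 : L1.degree = L.degree := lscale_degree hK L _
  have hz1 : hZero L1 = hZero L := hZero_lscale hK L _
  have hfin := H0_fin hK hg L1
  obtain ⟨x, hxW, hx⟩ := exists_generic hK (H0 L1) hE
  have hz2 : hZero L1 = Module.finrank ℂ (H0 L1) := rfl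
  have ht : Transcendental ℂ x := generic_transcendental hK (H0 L1) (by omega) hx
  have hx0 := ne_zero_of_transcendental ht
  have ha : (Module.finrank ℂ⟮x⟯ K : ℤ) ≤ L.degree := by
    have h2 : Sub (lineX hK hx0 1) L1 := by
      rw [sub_iff]
      intro v
      rw [lineX_frame_val, pow_one]
      exact max_le (eff_iff.1 hE v) (hxW v)
    have h3 := degree_mono hK h2
    rw [lineX_degree, hd1, ← degZ_eq_degP hK, degZ_eq hK ht] at h3
    simpa using h3
  have hM : IntermediateField.adjoin ℂ (H0 L1 : Set K) ≠ ⊤ := by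
    intro htop
    obtain ⟨h3, h4⟩ := genus_bound hK (H0 L1) hE hxW ht hx hg htop _ _ rfl rfl (by omega)
    set a : ℤ := (Module.finrank ℂ⟮x⟯ K : ℤ)
    set N : ℤ := (Module.finrank ℂ (H0 L1) : ℤ) - 1
    have h5 : 0 ≤ a - N := by omega
    have h6 : a - N ≤ L.degree - r := by omega
    have h7 : (a - N) * (a - N + 1) ≤ (L.degree - r) * (L.degree - r + 1) :=
      mul_le_mul h6 (by omega) (by omega) (by omega)
    omega
  obtain ⟨Lk, U, S, h3, h4, h5, h6, -⟩ := exists_step hK L1 hE (H0 L1) hE le_rfl hxW ht hx hM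
    (r - s).toNat
  refine ⟨Lk, ?_, ?_⟩
  · rw [h5, hd1]
    omega
  · have hfk := H0_fin hK hg Lk
    have h7 := Submodule.finrank_mono h4
    unfold hZero at *
    omega

end Pool.Agent.H607R3.BN
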