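import Pool.Agent.H607R3.BN.Composed

open scoped WithZero IntermediateField
open WithZero

set_option linter.unusedSectionVars false
set_option linter.unusedVariables false

namespace Pool.Agent.H607R3.BN

open Pool.Agent.Helper395.CS hiding genus
open Pool.Agent.Helper395.BC

variable {K : Type} [Field K] [Algebra ℂ K]

/-- there are infinitely many points -/
theorem exists_point_notMem (hK : IsCurve K) (F : Set (Point K)) (hF : F.Finite) :
    ∃ v : Point K, v ∉ F := by
  obtain ⟨t, ht⟩ := exists_transc hK
  choose pt hpt using fun c : ℂ => exists_point hK ht c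
  have hinj : Function.Injective pt := by
    intro c d hcd
    apply point_injective (hpt c)
    rw [hcd]
    exact hpt d
  by_contra hcon
  push Not at hcon
  exact Set.infinite_of_injective_forall_mem hinj (fun c => hcon (pt c)) hF

open Classical in
/-- the infimum of two line bundles -/
noncomputable def linf (L M : LineBundle K) : LineBundle K where
  frame v := if v.val (L.frame v : K) ≤ v.val (M.frame v : K) then L.frame v else M.frame v
  finite := (L.finite.union M.finite).subset fun v hv => by
    by_contra hcon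
    simp only [Set.mem_union, Set.mem_ofPred_eq, not_or, not_not] at hcon
    apply hv
    split_ifs
    · exact hcon.1
    · exact hcon.2

open Classical in
/-- the supremum of two line bundles -/
noncomputable def lsup (L M : LineBundle K) : LineBundle K where
  frame v := if v.val (L.frame v : K) ≤ v.val (M.frame v : K) then M.frame v else L.frame v
  finite := (L.finite.union M.finite).subset fun v hv => by
    by_contra hcon
    simp only [Set.mem_union, Set.mem_ofPred_eq, not_or, not_not] at hcon
    apply hv
    split_ifs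
    · exact hcon.2
    · exact hcon.1

theorem linf_val (L M : LineBundle K) (v : Point K) :
    v.val ((linf L M).frame v : K) = min (v.val (L.frame v : K)) (v.val (M.frame v : K)) := by
  classical
  change v.val ((if v.val (L.frame v : K) ≤ v.val (M.frame v : K) then L.frame v
    else M.frame v : Kˣ) : K) = _
  split_ifs with h
  · rw [min_eq_left h]
  · rw [min_eq_right (not_le.1 h).le]

theorem lsup_val (L M : LineBundle K) (v : Point K) :
    v.val ((lsup L M).frame v : K) = max (v.val (L.frame v : K)) (v.val (M.frame v : K)) := by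
  classical
  change v.val ((if v.val (L.frame v : K) ≤ v.val (M.frame v : K) then M.frame v
    else L.frame v : Kˣ) : K) = _
  split_ifs with h
  · rw [max_eq_right h]
  · rw [max_eq_left (not_le.1 h).le]

theorem ord_eq_of_val_eq (v : Point K) {a b : K} (h : v.val a = v.val b) : v.ord a = v.ord b := by
  rw [Point.ord, Point.ord, h]

theorem degree_congr {L M : LineBundle K}
    (h : ∀ v : Point K, v.val (L.frame v : K) = v.val (M.frame v : K)) : L.degree = M.degree := by
  rw [LineBundle.degree, LineBundle.degree]
  exact finsum_congr fun v => by rw [ord_eq_of_val_eq v (h v)]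

theorem lmul_val (L M : LineBundle K) (v : Point K) :
    v.val ((lmul L M).frame v : K) = v.val (L.frame v : K) * v.val (M.frame v : K) := by
  change v.val ((L.frame v * M.frame v : Kˣ) : K) = _
  rw [Units.val_mul, map_mul]

theorem linv_val (L : LineBundle K) (v : Point K) :
    v.val ((linv L).frame v : K) = (v.val (L.frame v : K))⁻¹ := by
  change v.val (((L.frame v)⁻¹ : Kˣ) : K) = _
  rw [Units.val_inv_eq_inv_val, map_inv₀]

theorem lscale_val (hK : IsCurve K) (L : LineBundle K) {f : K} (hf : f ≠ 0) (v : Point K) :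
    v.val ((lscale hK L hf).frame v : K) = v.val (L.frame v : K) * v.val f := by
  rw [lscale_frame, map_mul]

theorem linf_lsup_degree (L M : LineBundle K) :
    (linf L M).degree + (lsup L M).degree = L.degree + M.degree := by
  rw [← lmul_degree, ← lmul_degree]
  apply degree_congr
  intro v
  rw [lmul_val, lmul_val, linf_val, lsup_val, min_mul_max]

/-- effective subdivisors of given degree -/
theorem exists_sub_eff (hK : IsCurve K) (k : ℕ) : ∀ (n : ℕ) (B : LineBundle K), Eff B →
    B.degree = k + n → ∃ A : LineBundle K, Eff A ∧ Sub A B ∧ A.degree = k := by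
  intro n
  induction n with
  | zero =>
    intro B hB hd
    exact ⟨B, hB, Sub.refl B, by simpa using hd⟩
  | succ n ih =>
    intro B hB hd
    have h1 : ∃ v : Point K, 1 < v.val (B.frame v : K) := by
      by_contra hcon
      push Not at hcon
      have h2 : ∀ v : Point K, v.val (B.frame v : K) = v.val ((one K).frame v : K) := by
        intro v
        change _ = v.val ((1 : Kˣ) : K)
        rw [Units.val_one, map_one]
        exact le_antisymm (hcon v) (eff_iff.1 hB v)
      have h3 := degree_congr h2
      rw [one_degree] at h3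
      push_cast at hd
      omega
    obtain ⟨v, hv⟩ := h1
    have hB' : Eff (lsub B v) := by
      rw [eff_iff]
      intro w
      rcases eq_or_ne w v with rfl | hw
      · rw [lsub_frame_self]
        rw [w.val_eq_exp (B.frame w).ne_zero] at hv ⊢
        rw [← exp_zero, exp_lt_exp] at hv
        rw [← exp_add, ← exp_zero, exp_le_exp]
        omega
      · rw [lsub_frame_ne B hw]
        exact eff_iff.1 hB w
    obtain ⟨A, h4, h5, h6⟩ := ih (lsub B v) hB' (by rw [lsub_degree, hd]; push_cast; ring)
    exact ⟨A, h4, h5.trans (lsub_sub B v), h6⟩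

/-- descent of the degree, without increasing `deg - 2 r` -/
theorem descent (hK : IsCurve K) (hg : genus K ≠ 0) (L : LineBundle K) (δ s : ℤ) (hδ : 0 ≤ δ)
    (hs : 1 ≤ s) (hd : L.degree ≤ (genus K : ℤ) - 1)
    (hc : L.degree - 2 * (hZero L - 1) ≤ δ) (hr : δ + 2 * s ≤ hZero L - 1) :
    ∃ I : LineBundle K, 0 ≤ I.degree ∧ I.degree < L.degree ∧ I.degree - 2 * (hZero I - 1) ≤ δ ∧
      s ≤ hZero I - 1 := by
  obtain ⟨r, hrdef⟩ : ∃ r : ℤ, r = hZero L - 1 := ⟨_, rfl⟩
  rw [← hrdef] at hc hr
  -- the residual series
  have hrr := rrZ hK hg L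
  obtain ⟨t, htm, ht0⟩ := exists_section hK (L := lmul (can hK hg) (linv L)) (by omega)
  set C0 := lmul (can hK hg) (linv L) with hC0
  set B := lscale hK C0 (inv_ne_zero ht0) with hB
  have hBE : Eff B := exists_eff hK C0 htm ht0
  have hBd : B.degree = 2 * genus K - 2 - L.degree := by
    rw [hB, lscale_degree, hC0, lmul_degree, linv_degree, can_degree]
    ring
  have hBz : hZero B = hZero C0 := hZero_lscale hK C0 _
  have hrd : r ≤ L.degree := by
    obtain ⟨s1, hs1, hs1'⟩ := exists_section hK (L := L) (by omega)
    have h1 : Sub (one K) (lscale hK L (inv_ne_zero hs1')) := by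
      rw [sub_iff]
      intro v
      change v.val ((1 : Kˣ) : K) ≤ _
      rw [Units.val_one, map_one]
      exact eff_iff.1 (exists_eff hK L hs1 hs1') v
    have h2 := hZero_le hK hg h1
    rw [hZero_lscale, lscale_degree, one_degree] at h2
    have h3 : hZero (one K) = 1 := by
      unfold hZero
      rw [(H0_one hK).2]
      rfl
    omega
  obtain ⟨A0, hA0E, hA0B, hA0d⟩ := exists_sub_eff hK (r - 1).toNat (B.degree - (r - 1)).toNat B hBE
    (by omega)
  have hA0d' : A0.degree = r - 1 := by rw [hA0d]; omega
  obtain ⟨Q, hQ⟩ := exists_point_notMem hK _ B.finite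
  have hQ1 : Q.val (B.frame Q : K) = 1 := by
    by_contra h
    exact hQ h
  set L2 := lmul L (linv A0) with hL2
  have hL2L : Sub L2 L := by
    rw [sub_iff]
    intro v
    rw [hL2, lmul_val, linv_val]
    apply mul_le_of_le_one_right'
    exact inv_le_one_of_one_le₀ (eff_iff.1 hA0E v)
  have hL3L : Sub (lsub L2 Q) L := (lsub_sub L2 Q).trans hL2L
  have h3 := hZero_le hK hg hL3L
  rw [lsub_degree, hL2, lmul_degree, linv_degree, hA0d', ← hL2] at h3
  obtain ⟨σ, hσ, hσ0⟩ := exists_section hK (L := lsub L2 Q) (by omega)
  have hσ2 : σ ∈ H0 L2 := fun v => lsub_sub L2 Q v σ (hσ v)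
  have hσL : σ ∈ H0 L := fun v => hL3L v σ (hσ v)
  set A := lscale hK L (inv_ne_zero hσ0) with hA
  have hAE : Eff A := exists_eff hK L hσL hσ0
  have hAd : A.degree = L.degree := lscale_degree hK L _
  have hAz : hZero A = hZero L := hZero_lscale hK L _
  have hA0A : Sub A0 A := by
    rw [sub_iff]
    intro v
    have h4 := hσ2 v
    rw [hL2, mem_lmul_linv] at h4
    have h5 : v.val (σ * (A0.frame v : K)) ≤ v.val (L.frame v : K) := h4
    rw [hA, lscale_val, map_inv₀, ← div_eq_mul_inv, le_div_iff₀ (zero_lt_iff.2 (v.val_ne_zero hσ0)),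
      mul_comm, ← map_mul]
    exact h5
  have hAQ : 1 < Q.val (A.frame Q : K) := by
    have h4 := hσ Q
    rw [mem_lsub_self] at h4
    have h5 := h4.trans_le (sub_iff.1 hL2L Q)
    rw [hA, lscale_val, map_inv₀, ← div_eq_mul_inv, one_lt_div₀ (zero_lt_iff.2 (Q.val_ne_zero hσ0))]
    exact h5
  set I := linf A B with hI
  set J := lsup A B with hJ
  have hIE : Eff I := by
    rw [eff_iff]
    intro v
    rw [hI, linf_val]
    exact le_min (eff_iff.1 hAE v) (eff_iff.1 hBE v)
  have hA0I : Sub A0 I := by
    rw [sub_iff]
    intro v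
    rw [hI, linf_val]
    exact le_min (sub_iff.1 hA0A v) (sub_iff.1 hA0B v)
  have hId1 : r - 1 ≤ I.degree := by
    rw [← hA0d']
    exact degree_mono hK hA0I
  have hId2 : I.degree ≤ L.degree - 1 := by
    have h4 : Sub I (lsub A Q) := by
      rw [sub_iff]
      intro v
      rw [hI, linf_val]
      rcases eq_or_ne v Q with rfl | hv
      · rw [lsub_frame_self]
        refine (min_le_right _ _).trans ?_
        rw [hQ1]
        rw [v.val_eq_exp (A.frame v).ne_zero] at hAQ ⊢
        rw [← exp_zero, exp_lt_exp] at hAQ
        rw [← exp_add, ← exp_zero, exp_le_exp]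
        omega
      · rw [lsub_frame_ne A hv]
        exact min_le_left _ _
    have h5 := degree_mono hK h4
    rw [lsub_degree, hAd] at h5
    exact h5
  have hdegJ : J.degree = 2 * genus K - 2 - I.degree := by
    have h4 := linf_lsup_degree A B
    rw [← hI, ← hJ, hAd, hBd] at h4
    omega
  -- Riemann-Roch for `J`
  have hcanJ : hZero (lmul (can hK hg) (linv J)) = hZero I := by
    have hst : σ * t ≠ 0 := mul_ne_zero hσ0 ht0
    rw [← hZero_lscale hK I hst]
    apply hZero_congr
    intro v
    have hval : v.val ((lmul (can hK hg) (linv J)).frame v : K) =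
        v.val ((lscale hK I hst).frame v : K) := by
      rw [lmul_val, linv_val, lscale_val, map_mul, ← div_eq_mul_inv,
        div_eq_iff (v.val_ne_zero (J.frame v).ne_zero)]
      have h4 : v.val (I.frame v : K) * v.val (J.frame v : K) =
          v.val (A.frame v : K) * v.val (B.frame v : K) := by
        rw [hI, hJ, linf_val, lsup_val, min_mul_max]
      have h5 : v.val (A.frame v : K) * v.val (B.frame v : K) * (v.val σ * v.val t) =
          v.val ((can hK hg).frame v : K) := by
        rw [hA, hB, lscale_val, lscale_val, hC0, lmul_val, linv_val, map_inv₀, map_inv₀]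
        have e1 := v.val_ne_zero hσ0
        have e2 := v.val_ne_zero ht0
        have e3 := v.val_ne_zero (L.frame v).ne_zero
        calc v.val (L.frame v : K) * (v.val σ)⁻¹ *
              (v.val ((can hK hg).frame v : K) * (v.val (L.frame v : K))⁻¹ * (v.val t)⁻¹) *
              (v.val σ * v.val t) =
            v.val ((can hK hg).frame v : K) * (v.val (L.frame v : K) * (v.val (L.frame v : K))⁻¹) *
              (v.val σ * (v.val σ)⁻¹) * (v.val t * (v.val t)⁻¹) := by ac_rfl
          _ = v.val ((can hK hg).frame v : K) := by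
            rw [mul_inv_cancel₀ e1, mul_inv_cancel₀ e2, mul_inv_cancel₀ e3, mul_one, mul_one, mul_one]
      rw [← h5, ← h4]
      exact mul_right_comm _ _ _
    ext z
    change v.val z ≤ _ ↔ v.val z ≤ _
    rw [hval]
  have hrrJ := rrZ hK hg J
  rw [hcanJ, hdegJ] at hrrJ
  -- the dimension count
  have hfA := H0_fin hK hg A
  have hfB := H0_fin hK hg B
  have hfI := H0_fin hK hg I
  have hfJ := H0_fin hK hg J
  have h4 := Submodule.finrank_sup_add_finrank_inf_eq (H0 A) (H0 B)
  have h5 : H0 A ⊔ H0 B ≤ H0 J := by
    refine sup_le (H0_mono ?_) (H0_mono ?_)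
    · change Sub A J
      rw [sub_iff]
      intro v
      rw [hJ, lsup_val]
      exact le_max_left _ _
    · change Sub B J
      rw [sub_iff]
      intro v
      rw [hJ, lsup_val]
      exact le_max_right _ _
  have h6 : H0 A ⊓ H0 B ≤ H0 I := by
    rintro z ⟨hz1, hz2⟩ v
    change v.val z ≤ _
    rw [hI, linf_val]
    exact le_min (hz1 v) (hz2 v)
  have h7 := Submodule.finrank_mono h5
  have h8 := Submodule.finrank_mono h6
  have h9 : hZero A + hZero B ≤ hZero J + hZero I := by
    unfold hZero
    omega
  refine ⟨I, eff_degree hK hIE, by omega, by omega, by omega⟩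

/-- **Main theorem.** On a curve of genus `g > (2δ + 2s - 1)(δ + s)`, a `g^r_d` with `d ≤ g - 1`,
`r ≥ s ≥ 1` and `d - 2r ≤ δ` induces a `g^s_{δ + 2s}`. -/
theorem small_clifford (hK : IsCurve K) (hg : genus K ≠ 0) (δ s : ℤ) (hδ : 0 ≤ δ) (hs : 1 ≤ s)
    (hgen : (2 * δ + 2 * s - 1) * (δ + s) < (genus K : ℤ)) (n : ℕ) :
    ∀ L : LineBundle K, L.degree ≤ n → L.degree ≤ (genus K : ℤ) - 1 →
      L.degree - 2 * (hZero L - 1) ≤ δ → s ≤ hZero L - 1 →
      ∃ M : LineBundle K, M.degree = δ + 2 * s ∧ s + 1 ≤ hZero M := by
  have hadd : ∀ L : LineBundle K, L.degree ≤ δ + 2 * s → s + 1 ≤ hZero L →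
      ∃ M : LineBundle K, M.degree = δ + 2 * s ∧ s + 1 ≤ hZero M := by
    intro L h1 h2
    obtain ⟨M, h3, h4⟩ := exists_add hK hg L (δ + 2 * s - L.degree).toNat
    exact ⟨M, by rw [h4]; omega, h2.trans (hZero_mono hK hg h3)⟩
  induction n with
  | zero =>
    intro L h1 h2 h3 h4
    exact hadd L (by push_cast at h1; omega) (by omega)
  | succ n ih =>
    intro L h1 h2 h3 h4
    rcases lt_or_ge (hZero L - 1) (δ + 2 * s) with h5 | h5
    · have hd0 : hZero L - 1 ≤ L.degree := by
        obtain ⟨s1, hs1, hs1'⟩ := exists_section hK (L := L) (by omega)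
        have h1 : Sub (one K) (lscale hK L (inv_ne_zero hs1')) := by
          rw [sub_iff]
          intro v
          change v.val ((1 : Kˣ) : K) ≤ _
          rw [Units.val_one, map_one]
          exact eff_iff.1 (exists_eff hK L hs1 hs1') v
        have h2 := hZero_le hK hg h1
        rw [hZero_lscale, lscale_degree, one_degree] at h2
        have h3 : hZero (one K) = 1 := by
          unfold hZero
          rw [(H0_one hK).2]
          rfl
        omega
      obtain ⟨L', h6, h7⟩ := composed hK hg L (hZero L - 1) s hs h4 (by omega) (by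
        have h8 : L.degree - (hZero L - 1) ≤ 2 * δ + 2 * s - 1 := by omega
        have h9 : (L.degree - (hZero L - 1)) * (L.degree - (hZero L - 1) + 1) ≤
            (2 * δ + 2 * s - 1) * (2 * δ + 2 * s - 1 + 1) :=
          mul_le_mul h8 (by omega) (by omega) (by omega)
        have h10 : (2 * δ + 2 * s - 1) * (2 * δ + 2 * s - 1 + 1) =
            2 * ((2 * δ + 2 * s - 1) * (δ + s)) := by ring
        omega)
      exact hadd L' (by omega) h7
    · obtain ⟨I, h6, h7, h8, h9⟩ := descent hK hg L δ s hδ hs h2 h3 h5
      exact ih I (by push_cast at h1; omega) (by omega) h8 h9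

end Pool.Agent.H607R3.BN
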