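import Pool.Agent.H607R3.BN.Basic

open scoped WithZero IntermediateField
open WithZero

set_option linter.unusedSectionVars false
set_option linter.unusedVariables false

namespace Pool.Agent.H607R3.BN

open Pool.Agent.Helper395.CS hiding genus
open Pool.Agent.Helper395.BC

variable {K : Type} [Field K] [Algebra ℂ K]

/-- a finite-dimensional space of functions attains its maximal pole order at every point -/
theorem exists_max_val (v : Point K) (W : Submodule ℂ K) [FiniteDimensional ℂ W]
    (h1 : (1 : K) ∈ W) : ∃ m ∈ W, ∀ w ∈ W, v.val w ≤ v.val m := by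
  classical
  let b := Module.finBasis ℂ W
  have hne : Nonempty (Fin (Module.finrank ℂ W)) := by
    have : 0 < Module.finrank ℂ W := by
      rw [Module.finrank_pos_iff_exists_ne_zero]
      exact ⟨⟨1, h1⟩, fun h => one_ne_zero (congrArg Subtype.val h)⟩
    exact ⟨⟨0, this⟩⟩
  obtain ⟨i, -, hi⟩ := Finset.exists_max_image Finset.univ (fun i => v.val (b i : K))
    Finset.univ_nonempty
  refine ⟨b i, (b i).2, fun w hw => ?_⟩
  have h2 : w = ∑ j, (b.repr ⟨w, hw⟩ j) • (b j : K) := by
    have := congrArg W.subtype (b.sum_repr ⟨w, hw⟩)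
    rw [map_sum] at this
    exact this.symm
  rw [h2]
  refine Valuation.map_sum_le _ fun j _ => ?_
  rw [Algebra.smul_def, map_mul]
  exact (mul_le_of_le_one_left' (v.const_le _)).trans (hi j (Finset.mem_univ j))

/-- only finitely many points are poles of elements of `W` -/
theorem finite_poles (hK : IsCurve K) (W : Submodule ℂ K) [FiniteDimensional ℂ W] :
    {v : Point K | ∃ w ∈ W, 1 < v.val w}.Finite := by
  classical
  let b := Module.finBasis ℂ W
  refine (Set.finite_iUnion fun i => finite_not_reg hK (b i : K)).subset ?_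
  rintro v ⟨w, hw, hlt⟩
  by_contra hcon
  rw [Set.mem_iUnion] at hcon
  have h0 : ∀ i, v.val (b i : K) ≤ 1 := fun i => by
    by_contra h
    exact hcon ⟨i, h⟩
  have h2 : w = ∑ j, (b.repr ⟨w, hw⟩ j) • (b j : K) := by
    have := congrArg W.subtype (b.sum_repr ⟨w, hw⟩)
    rw [map_sum] at this
    exact this.symm
  have h3 : v.val w ≤ 1 := by
    rw [h2]
    refine Valuation.map_sum_le _ fun j _ => ?_
    rw [Algebra.smul_def, map_mul]
    exact mul_le_one' (v.const_le _) (h0 j)
  exact absurd hlt (not_lt.2 h3)

/-- the elements of `W` with less than maximal pole order -/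
def lower (v : Point K) (W : Submodule ℂ K) (m : K) (hm : m ≠ 0) : Submodule ℂ W where
  carrier := {w | v.val w.1 < v.val m}
  add_mem' := by
    intro a b ha hb
    change v.val (a.1 + b.1) < v.val m
    exact Valuation.map_add_lt _ ha hb
  zero_mem' := by
    change v.val 0 < v.val m
    rw [map_zero]
    exact zero_lt_iff.2 (v.val_ne_zero hm)
  smul_mem' := by
    intro c w hw
    change v.val (c • w.1) < v.val m
    rw [Algebra.smul_def, map_mul]
    exact (mul_le_of_le_one_left' (v.const_le _)).trans_lt hw

theorem mem_lower {v : Point K} {W : Submodule ℂ K} {m : K} {hm : m ≠ 0} {w : W} :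
    w ∈ lower v W m hm ↔ v.val w.1 < v.val m := Iff.rfl

/-- the generic element -/
theorem exists_generic (hK : IsCurve K) (W : Submodule ℂ K) [FiniteDimensional ℂ W]
    (h1 : (1 : K) ∈ W) :
    ∃ x ∈ W, ∀ w ∈ W, ∀ v : Point K, v.val w ≤ max 1 (v.val x) := by
  classical
  choose m hmW hm using fun v : Point K => exists_max_val v W h1
  have hm0 : ∀ v, m v ≠ 0 := by
    intro v h
    have := hm v 1 h1
    rw [h, map_zero, map_one] at this
    exact absurd this (by simp)
  set P := {v : Point K | ∃ w ∈ W, 1 < v.val w} with hP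
  have hPf : Finite P := (finite_poles hK W).to_subtype
  have key : ∃ x : W, ∀ v : P, x ∉ lower v.1 W (m v.1) (hm0 v.1) := by
    by_contra hcon
    push Not at hcon
    have hcov : ⋃ v : P, (lower v.1 W (m v.1) (hm0 v.1) : Set W) = Set.univ := by
      rw [Set.eq_univ_iff_forall]
      intro x
      obtain ⟨v, hv⟩ := hcon x
      exact Set.mem_iUnion.2 ⟨v, hv⟩
    obtain ⟨v, hv⟩ := Subspace.exists_eq_top_of_iUnion_eq_univ hcov
    have : (⟨m v.1, hmW v.1⟩ : W) ∈ lower v.1 W (m v.1) (hm0 v.1) := by rw [hv]; trivial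
    rw [mem_lower] at this
    exact lt_irrefl _ this
  obtain ⟨x, hx⟩ := key
  refine ⟨x.1, x.2, fun w hw v => ?_⟩
  by_cases hv : v ∈ P
  · have h2 := hx ⟨v, hv⟩
    rw [mem_lower] at h2
    exact le_max_of_le_right ((hm v w hw).trans (not_lt.1 h2))
  · apply le_max_of_le_left
    by_contra h
    exact hv ⟨w, hw, not_le.1 h⟩

/-- a nonconstant function has a pole -/
theorem exists_pole (hK : IsCurve K) {z : K} (hz : Transcendental ℂ z) :
    ∃ v : Point K, 1 < v.val z := by
  by_contra h
  push Not at h
  obtain ⟨c, rfl⟩ := const_of_regular hK h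
  exact hz (isAlgebraic_algebraMap c)

theorem transcendental_of_pole {z : K} {v : Point K} (h : 1 < v.val z) : Transcendental ℂ z := by
  by_contra hz
  obtain ⟨c, rfl⟩ := exists_const hz
  exact absurd h (not_lt.2 (v.const_le c))

/-- the generic element is nonconstant as soon as `dim W ≥ 2` -/
theorem generic_transcendental (hK : IsCurve K) (W : Submodule ℂ K) [FiniteDimensional ℂ W]
    (hW : 2 ≤ Module.finrank ℂ W) {x : K}
    (hx : ∀ w ∈ W, ∀ v : Point K, v.val w ≤ max 1 (v.val x)) : Transcendental ℂ x := by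
  have h1 : ∃ w ∈ W, Transcendental ℂ w := by
    by_contra hcon
    push Not at hcon
    have h2 : W ≤ Submodule.span ℂ {(1 : K)} := by
      intro w hw
      obtain ⟨c, rfl⟩ := exists_const (hcon w hw)
      rw [Submodule.mem_span_singleton]
      exact ⟨c, by rw [Algebra.smul_def, mul_one]⟩
    have h3 := Submodule.finrank_mono h2
    rw [finrank_span_singleton one_ne_zero] at h3
    omega
  obtain ⟨w, hw, ht⟩ := h1
  obtain ⟨v, hv⟩ := exists_pole hK ht
  apply transcendental_of_pole (v := v)
  rcases le_max_iff.1 (hx w hw v) with h | h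
  · exact absurd hv (not_lt.2 h)
  · exact hv.trans_le h

end Pool.Agent.H607R3.BN
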