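import Pool.Agent.H607R3.BN.Growth

open scoped WithZero IntermediateField
open WithZero

set_option linter.unusedSectionVars false
set_option linter.unusedVariables false

namespace Pool.Agent.H607R3.BN

open Pool.Agent.Helper395.CS hiding genus
open Pool.Agent.Helper395.BC

variable {K : Type} [Field K] [Algebra ℂ K]

/-! ### multiples of the polar divisor -/

open Classical in
/-- the line bundle `n (x)_∞` -/
noncomputable def lineX (hK : IsCurve K) {x : K} (hx : x ≠ 0) (n : ℕ) : LineBundle K where
  frame v := if v.val x ≤ 1 then 1 else (Units.mk0 x hx) ^ n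
  finite := by
    refine (finite_not_reg hK x).subset fun v hv h => hv ?_
    rw [if_pos h, Units.val_one, map_one]

theorem lineX_frame_val (hK : IsCurve K) {x : K} (hx : x ≠ 0) (n : ℕ) (v : Point K) :
    v.val ((lineX hK hx n).frame v : K) = (max 1 (v.val x)) ^ n := by
  classical
  change v.val ((if v.val x ≤ 1 then 1 else (Units.mk0 x hx) ^ n : Kˣ) : K) = _
  split_ifs with h
  · rw [Units.val_one, map_one, max_eq_left h, one_pow]
  · rw [Units.val_pow_eq_pow_val, Units.val_mk0, map_pow, max_eq_right (not_le.1 h).le]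

theorem mem_lineX (hK : IsCurve K) {x : K} (hx : x ≠ 0) (n : ℕ) (z : K) :
    z ∈ H0 (lineX hK hx n) ↔ ∀ v : Point K, v.val z ≤ (max 1 (v.val x)) ^ n := by
  change (∀ v : Point K, v.val z ≤ v.val ((lineX hK hx n).frame v : K)) ↔ _
  simp only [lineX_frame_val]

theorem lineX_degree (hK : IsCurve K) {x : K} (hx : x ≠ 0) (n : ℕ) :
    (lineX hK hx n).degree = n * degP x := by
  classical
  rw [LineBundle.degree, degP, mul_finsum]
  refine finsum_congr fun v => ?_
  change -v.ord ((if v.val x ≤ 1 then 1 else (Units.mk0 x hx) ^ n : Kˣ) : K) = _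
  split_ifs with h
  · rw [Units.val_one, v.ord_one]
    have := (v.val_le_one_iff hx).1 h
    rw [max_eq_right (by omega)]
    simp
  · rw [Units.val_pow_eq_pow_val, Units.val_mk0, v.ord_pow]
    have := (v.one_lt_val_iff hx).1 (not_le.1 h)
    rw [max_eq_left (by omega)]
    ring

/-! ### the first step -/

section first

variable (hK : IsCurve K) (W : Submodule ℂ K) [FiniteDimensional ℂ W] (h1 : (1 : K) ∈ W)
  {x : K} (hxW : x ∈ W) (ht : Transcendental ℂ x)
  (hx : ∀ w ∈ W, ∀ v : Point K, v.val w ≤ max 1 (v.val x))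

include hK h1 hxW ht hx

theorem exists_functional : ∃ f : W →ₗ[ℂ] ℂ, f ⟨1, h1⟩ = 0 ∧ f ⟨x, hxW⟩ = 1 := by
  have hli : LinearIndependent ℂ ![(⟨x, hxW⟩ : W), ⟨1, h1⟩] := by
    rw [LinearIndependent.pair_iff]
    intro s t hst
    have h2 : s • x + t • (1 : K) = 0 := congrArg W.subtype hst
    have hs : s = 0 := by
      by_contra hs
      apply ht
      have h3 : x = algebraMap ℂ K (-t / s) := by
        rw [Algebra.smul_def, Algebra.smul_def, mul_one] at h2
        have hs' : algebraMap ℂ K s ≠ 0 := (map_ne_zero _).2 hs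
        rw [map_div₀, map_neg, eq_div_iff hs']
        linear_combination h2
      rw [h3]
      exact isAlgebraic_algebraMap _
    refine ⟨hs, ?_⟩
    rw [hs, zero_smul, zero_add, Algebra.smul_def, mul_one] at h2
    exact (map_eq_zero _).1 h2
  have hx1 : (⟨x, hxW⟩ : W) ∉ Submodule.span ℂ {(⟨1, h1⟩ : W)} := by
    intro hmem
    obtain ⟨c, hc⟩ := Submodule.mem_span_singleton.1 hmem
    have := (LinearIndependent.pair_iff.1 hli) (-1) c (by rw [hc]; simp)
    exact absurd this.1 (by norm_num)
  obtain ⟨f, hf1, hf2⟩ := Submodule.exists_dual_map_eq_bot_of_notMem hx1 inferInstance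
  have hf3 : f ⟨1, h1⟩ = 0 := by
    have : f ⟨1, h1⟩ ∈ Submodule.map f (Submodule.span ℂ {(⟨1, h1⟩ : W)}) :=
      Submodule.mem_map_of_mem (Submodule.mem_span_singleton_self _)
    rw [hf2] at this
    simpa using this
  refine ⟨(f ⟨x, hxW⟩)⁻¹ • f, ?_, ?_⟩
  · rw [LinearMap.smul_apply, hf3, smul_zero]
  · rw [LinearMap.smul_apply, smul_eq_mul, inv_mul_cancel₀ hf1]

theorem first_step : Module.finrank ℂ W ≤
    Module.finrank ℂ⟮x⟯ (Submodule.span ℂ⟮x⟯ (W : Set K)) + 1 := by
  classical
  have hfin := hK.finiteDimensional ht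
  obtain ⟨f, hf1, hfx⟩ := exists_functional hK W h1 hxW ht hx
  have hT0 : Module.finrank ℂ (LinearMap.ker f) + 1 = Module.finrank ℂ W := by
    have h2 := LinearMap.finrank_range_add_finrank_ker f
    have h3 : LinearMap.range f = ⊤ := by
      rw [LinearMap.range_eq_top]
      intro c
      exact ⟨c • ⟨x, hxW⟩, by rw [map_smul, hfx, smul_eq_mul, mul_one]⟩
    rw [h3, finrank_top, Module.finrank_self] at h2
    omega
  obtain ⟨T, hTf⟩ : ∃ T : Submodule ℂ K, T = (LinearMap.ker f).map W.subtype := ⟨_, rfl⟩
  have hT : Module.finrank ℂ T + 1 = Module.finrank ℂ W := by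
    rw [hTf, Submodule.finrank_map_subtype_eq]
    exact hT0
  have hTW : ∀ t ∈ T, ∃ h : t ∈ W, f ⟨t, h⟩ = 0 := by
    intro t ht
    rw [hTf] at ht
    obtain ⟨w, hw, rfl⟩ := ht
    exact ⟨w.2, hw⟩
  have hTW' : T ≤ W := fun t ht => (hTW t ht).1
  have hTfin : FiniteDimensional ℂ T := Submodule.finiteDimensional_of_le hTW'
  let e := Module.finBasis ℂ T
  let E : Fin (Module.finrank ℂ T) → K := fun i => (e i : K)
  have hEW : ∀ i, E i ∈ W := fun i => hTW' (e i).2
  have hlin : ∀ α : Fin (Module.finrank ℂ T) → ℂ, (∑ i, α i • E i) = ((∑ i, α i • e i : T) : K) := by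
    intro α
    simp [E]
  have hli : LinearIndependent ℂ⟮x⟯ E := by
    rw [Fintype.linearIndependent_iff]
    intro φ hφ
    obtain ⟨q, hq, hqf⟩ := common_denominator ht (fun i => (φ i : K)) (fun i => (φ i).2)
    choose P hP using hqf
    have h3 : ∑ i, Polynomial.aeval x (P i) * E i = 0 := by
      have h4 : Polynomial.aeval x q * ∑ i, φ i • E i = 0 := by rw [hφ, mul_zero]
      rw [Finset.mul_sum] at h4
      rw [← h4]
      refine Finset.sum_congr rfl fun i _ => ?_
      rw [← hP, Algebra.smul_def]
      change _ = Polynomial.aeval x q * ((φ i : K) * E i)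
      ring
    have hPz : ∀ i, P i = 0 := by
      intro i0
      by_contra hne
      obtain ⟨c, hc⟩ := exists_eval_ne hne
      choose G hG using fun i => Polynomial.X_sub_C_dvd_sub_C_eval (a := c) (p := P i)
      have hxc : x - algebraMap ℂ K c ≠ 0 := by
        have := aeval_ne_zero ht (Polynomial.X_sub_C_ne_zero c)
        simpa using this
      set u : K := ∑ i, (P i).eval c • E i with hu
      have hu2 : u = (x - algebraMap ℂ K c) * (-∑ i, Polynomial.aeval x (G i) * E i) := by
        have h5 : u - ∑ i, Polynomial.aeval x (P i) * E i =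
            (x - algebraMap ℂ K c) * (-∑ i, Polynomial.aeval x (G i) * E i) := by
          rw [hu, ← Finset.sum_sub_distrib, ← Finset.sum_neg_distrib, Finset.mul_sum]
          refine Finset.sum_congr rfl fun i _ => ?_
          have h6 := congrArg (Polynomial.aeval x) (hG i)
          simp only [map_sub, map_mul, Polynomial.aeval_C, Polynomial.aeval_X] at h6
          rw [Algebra.smul_def]
          linear_combination (-E i) * h6
        rw [h3, sub_zero] at h5
        exact h5
      have huW : u ∈ W := sum_mem fun i _ => Submodule.smul_mem _ _ (hEW i)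
      set z : K := -∑ i, Polynomial.aeval x (G i) * E i with hz
      have hreg : ∀ v : Point K, v.val z ≤ 1 := by
        intro v
        by_cases hv : v.val x ≤ 1
        · rw [hz, Valuation.map_neg]
          refine Valuation.map_sum_le _ fun i _ => ?_
          rw [map_mul]
          refine mul_le_one' (aeval_le hv _) ?_
          have := hx _ (hEW i) v
          rwa [max_eq_left hv] at this
        · have hv' := not_le.1 hv
          have h6 : v.val (x - algebraMap ℂ K c) = v.val x := by
            have h7 : v.val (-algebraMap ℂ K c) < v.val x := by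
              rw [Valuation.map_neg]
              exact (v.const_le c).trans_lt hv'
            rw [sub_eq_add_neg]
            exact Valuation.map_add_eq_of_lt_left _ h7
          have h7 := hx u huW v
          rw [max_eq_right hv'.le, hu2, map_mul, h6] at h7
          have h8 : 0 < v.val x := zero_lt_one.trans hv'
          exact (mul_le_iff_le_one_right h8).1 h7
      obtain ⟨β, hβ⟩ := const_of_regular hK hreg
      -- apply the functional
      have h9 : (⟨u, huW⟩ : W) = β • ⟨x, hxW⟩ - (β * c) • ⟨1, h1⟩ := by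
        apply Subtype.ext
        change u = β • x - (β * c) • (1 : K)
        rw [hu2, hβ, Algebra.smul_def, Algebra.smul_def, map_mul]
        ring
      have h10 : f ⟨u, huW⟩ = β := by
        rw [h9, map_sub, map_smul, map_smul, hf1, hfx]
        simp
      have h11 : f ⟨u, huW⟩ = 0 := by
        have h12 : u ∈ T := by
          rw [hu, hlin]
          exact (∑ i, (P i).eval c • e i : T).2
        exact (hTW u h12).2
      have h13 : u = 0 := by
        rw [hu2, hβ, ← h10, h11, map_zero, mul_zero]
      have h14 : (∑ i, (P i).eval c • e i : T) = 0 := by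
        apply Subtype.ext
        rw [← hlin]
        exact h13
      have h15 := (Fintype.linearIndependent_iff.1 e.linearIndependent) _ h14 i0
      exact hc h15
    intro i
    have h4 := hP i
    rw [hPz i, map_zero] at h4
    have h5 := (mul_eq_zero.1 h4).resolve_left (aeval_ne_zero ht hq)
    exact Subtype.ext h5
  have h4 : Submodule.span ℂ⟮x⟯ (Set.range E) ≤ Submodule.span ℂ⟮x⟯ (W : Set K) := by
    apply Submodule.span_mono
    rintro _ ⟨i, rfl⟩
    exact hEW i
  have h5 := Submodule.finrank_mono h4
  rw [finrank_span_eq_card hli, Fintype.card_fin] at h5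
  omega

/-! ### the filtration -/

theorem pow_le_succ (n : ℕ) : W ^ n ≤ W ^ (n + 1) := by
  intro z hz
  rw [pow_succ]
  have := Submodule.mul_mem_mul hz h1
  rwa [mul_one] at this

theorem span_mono_succ (n : ℕ) : Submodule.span ℂ⟮x⟯ ((W ^ n : Submodule ℂ K) : Set K) ≤
    Submodule.span ℂ⟮x⟯ ((W ^ (n + 1) : Submodule ℂ K) : Set K) :=
  Submodule.span_mono (pow_le_succ hK W h1 hxW ht hx n)

theorem one_mem_pow (n : ℕ) : (1 : K) ∈ W ^ n := by
  induction n with
  | zero => rw [pow_zero]; exact Submodule.one_le.1 le_rfl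
  | succ n ih => exact pow_le_succ hK W h1 hxW ht hx n ih

theorem stable_eq_top (hgen : IntermediateField.adjoin ℂ (W : Set K) = ⊤) (n : ℕ)
    (h : Submodule.span ℂ⟮x⟯ ((W ^ n : Submodule ℂ K) : Set K) =
      Submodule.span ℂ⟮x⟯ ((W ^ (n + 1) : Submodule ℂ K) : Set K)) :
    Submodule.span ℂ⟮x⟯ ((W ^ n : Submodule ℂ K) : Set K) = ⊤ := by
  have hfin := hK.finiteDimensional ht
  set S := Submodule.span ℂ⟮x⟯ ((W ^ n : Submodule ℂ K) : Set K) with hS
  -- closed under multiplication by `W`
  have hmul : ∀ w ∈ W, ∀ s ∈ S, w * s ∈ S := by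
    intro w hw s hs
    have h2 : w * s ∈ Submodule.span ℂ⟮x⟯ ((W ^ (n + 1) : Submodule ℂ K) : Set K) := by
      induction hs using Submodule.span_induction with
      | mem z hz =>
        apply Submodule.subset_span
        rw [SetLike.mem_coe, pow_succ, mul_comm w z]
        exact Submodule.mul_mem_mul hz hw
      | zero => rw [mul_zero]; exact zero_mem _
      | add a b _ _ ha hb => rw [mul_add]; exact add_mem ha hb
      | smul c a _ ha => rw [mul_smul_comm]; exact Submodule.smul_mem _ _ ha
    rwa [← h] at h2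
  let A : Subalgebra ℂ⟮x⟯ K :=
    { carrier := {z | ∀ s ∈ S, z * s ∈ S}
      mul_mem' := by
        intro a b ha hb s hs
        rw [mul_assoc]
        exact ha _ (hb _ hs)
      one_mem' := by
        intro s hs
        rwa [one_mul]
      add_mem' := by
        intro a b ha hb s hs
        rw [add_mul]
        exact add_mem (ha s hs) (hb s hs)
      zero_mem' := by
        intro s hs
        rw [zero_mul]; exact zero_mem _
      algebraMap_mem' := by
        intro c s hs
        rw [← Algebra.smul_def]
        exact Submodule.smul_mem _ _ hs }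
  have hWA : (W : Set K) ⊆ A := fun w hw s hs => hmul w hw s hs
  have hA : A = ⊤ := by
    have h2 : Algebra.adjoin ℂ⟮x⟯ (W : Set K) ≤ A := Algebra.adjoin_le hWA
    have h3 : (IntermediateField.adjoin ℂ⟮x⟯ (W : Set K)).toSubalgebra =
        Algebra.adjoin ℂ⟮x⟯ (W : Set K) :=
      IntermediateField.adjoin_toSubalgebra_of_isAlgebraic fun w _ => Algebra.IsAlgebraic.isAlgebraic w
    have h4 : IntermediateField.adjoin ℂ⟮x⟯ (W : Set K) = ⊤ := by
      rw [eq_top_iff]
      intro z _
      have h5 : IntermediateField.adjoin ℂ (W : Set K) ≤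
          (IntermediateField.adjoin ℂ⟮x⟯ (W : Set K)).restrictScalars ℂ := by
        rw [IntermediateField.adjoin_le_iff]
        exact IntermediateField.subset_adjoin ℂ⟮x⟯ (W : Set K)
      rw [hgen] at h5
      exact h5 (IntermediateField.mem_top)
    rw [eq_top_iff, ← IntermediateField.top_toSubalgebra, ← h4, h3]
    exact h2
  rw [eq_top_iff]
  intro z _
  have h2 : z ∈ A := by rw [hA]; exact Algebra.mem_top
  have h3 := h2 1 (Submodule.subset_span (one_mem_pow hK W h1 hxW ht hx n))
  rwa [mul_one] at h3

theorem rho_bound (hgen : IntermediateField.adjoin ℂ (W : Set K) = ⊤) (n : ℕ) :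
    min (Module.finrank ℂ⟮x⟯ K) (Module.finrank ℂ W - 1 + n) ≤
      Module.finrank ℂ⟮x⟯ (Submodule.span ℂ⟮x⟯ ((W ^ (n + 1) : Submodule ℂ K) : Set K)) := by
  have hfin := hK.finiteDimensional ht
  induction n with
  | zero =>
    have := first_step hK W h1 hxW ht hx
    rw [zero_add, pow_one]
    omega
  | succ n ih =>
    have h2 := span_mono_succ hK W h1 hxW ht hx (n + 1)
    have h3 := Submodule.finrank_mono h2
    by_cases heq : Submodule.span ℂ⟮x⟯ ((W ^ (n + 1) : Submodule ℂ K) : Set K) =
        Submodule.span ℂ⟮x⟯ ((W ^ (n + 1 + 1) : Submodule ℂ K) : Set K)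
    · have h4 := stable_eq_top hK W h1 hxW ht hx hgen (n + 1) heq
      rw [← heq, h4, finrank_top]
      exact min_le_left _ _
    · have h4 := Submodule.finrank_lt_finrank_of_lt (lt_of_le_of_ne h2 heq)
      omega

theorem pow_finite (n : ℕ) : FiniteDimensional ℂ (W ^ n : Submodule ℂ K) := by
  have h2 : W.FG := (Submodule.fg_iff_finiteDimensional W).2 inferInstance
  exact (Submodule.fg_iff_finiteDimensional _).1 (h2.pow n)

theorem dim_pow (hgen : IntermediateField.adjoin ℂ (W : Set K) = ⊤) (n : ℕ) (a N u : ℤ)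
    (ha : a = Module.finrank ℂ⟮x⟯ K) (hN : N = (Module.finrank ℂ W : ℤ) - 1) (hu : u = a - N)
    (hu0 : 0 ≤ u) (hN0 : 0 ≤ N) :
    2 + 2 * n * a - u * (u + 1) + max 0 (u - n) * (max 0 (u - n) + 1) ≤
      2 * (Module.finrank ℂ (W ^ n : Submodule ℂ K) : ℤ) := by
  have hfin := hK.finiteDimensional ht
  induction n with
  | zero =>
    have h2 : (1 : ℤ) ≤ Module.finrank ℂ (W ^ 0 : Submodule ℂ K) := by
      have := pow_finite hK W h1 hxW ht hx 0
      have h3 : 0 < Module.finrank ℂ (W ^ 0 : Submodule ℂ K) := by
        rw [Module.finrank_pos_iff_exists_ne_zero]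
        exact ⟨⟨1, one_mem_pow hK W h1 hxW ht hx 0⟩, fun h => one_ne_zero (congrArg Subtype.val h)⟩
      exact_mod_cast h3
    rw [Nat.cast_zero, sub_zero, max_eq_right hu0]
    linarith
  | succ n ih =>
    have hf := pow_finite hK W h1 hxW ht hx (n + 1)
    have h2 := growth hK ht (W ^ n) (W ^ (n + 1)) (pow_le_succ hK W h1 hxW ht hx n)
      (fun h hh => by
        rw [pow_succ, mul_comm x h]
        exact Submodule.mul_mem_mul hh hxW)
    have h3 := rho_bound hK W h1 hxW ht hx hgen n
    have h4 : min a (N + n) ≤ (Module.finrank ℂ (W ^ (n + 1) : Submodule ℂ K) : ℤ) -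
        Module.finrank ℂ (W ^ n : Submodule ℂ K) := by
      omega
    push_cast
    rcases lt_or_ge (n : ℤ) u with hlt | hge
    · have h5 : max 0 (u - n) = u - n := max_eq_right (by omega)
      have h6 : max 0 (u - (n + 1)) = u - (n + 1) := max_eq_right (by omega)
      rw [h5] at ih
      rw [h6]
      have h7 : min a (N + n) = N + n := min_eq_right (by omega)
      rw [h7] at h4
      nlinarith
    · have h5 : max 0 (u - n) = 0 := max_eq_left (by omega)
      have h6 : max 0 (u - (n + 1)) = 0 := max_eq_left (by omega)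
      rw [h5] at ih
      rw [h6]
      have h7 : min a (N + n) = a := min_eq_left (by omega)
      rw [h7] at h4
      nlinarith

theorem pow_le_lineX (n : ℕ) : W ^ n ≤ H0 (lineX hK (ne_zero_of_transcendental ht) n) := by
  induction n with
  | zero =>
    rw [pow_zero, Submodule.one_le, mem_lineX]
    intro v
    rw [map_one, pow_zero]
  | succ n ih =>
    rw [pow_succ, Submodule.mul_le]
    intro a ha b hb
    have h2 := ih ha
    rw [mem_lineX] at h2 ⊢
    intro v
    rw [map_mul, pow_succ]
    exact mul_le_mul' (h2 v) (hx b hb v)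

/-- The genus bound for a space `W` of functions which generates the function field. -/
theorem genus_bound (hg : genus K ≠ 0) (hgen : IntermediateField.adjoin ℂ (W : Set K) = ⊤)
    (a N : ℤ) (ha : a = Module.finrank ℂ⟮x⟯ K) (hN : N = (Module.finrank ℂ W : ℤ) - 1)
    (hN0 : 0 ≤ N) : N ≤ a ∧ 2 * (genus K : ℤ) ≤ (a - N) * (a - N + 1) := by
  have hfin := hK.finiteDimensional ht
  have hNa : N ≤ a := by
    have h2 := first_step hK W h1 hxW ht hx
    have h3 := Submodule.finrank_le (Submodule.span ℂ⟮x⟯ (W : Set K))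
    omega
  refine ⟨hNa, ?_⟩
  have hapos : 0 < a := by
    rw [ha]
    exact_mod_cast Module.finrank_pos
  set n : ℕ := 2 * genus K with hn
  have h2 := dim_pow hK W h1 hxW ht hx hgen n a N (a - N) ha hN rfl (by omega) hN0
  have hfin2 := H0_fin hK hg (lineX hK (ne_zero_of_transcendental ht) n)
  have h3 := Submodule.finrank_mono (pow_le_lineX hK W h1 hxW ht hx n)
  have hdeg : (lineX hK (ne_zero_of_transcendental ht) n).degree = n * a := by
    rw [lineX_degree, ← degZ_eq_degP hK, degZ_eq hK ht, ha]
  have h4 := rr_large hK hg (L := lineX hK (ne_zero_of_transcendental ht) n) (by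
    rw [hdeg, hn]
    push_cast
    nlinarith [Nat.zero_le (genus K)])
  rw [hdeg] at h4
  unfold hZero at h4
  have h5 : (Module.finrank ℂ (W ^ n : Submodule ℂ K) : ℤ) ≤ n * a + 1 - genus K := by
    rw [← h4]
    exact_mod_cast h3
  have h6 : 0 ≤ max 0 (a - N - n) * (max 0 (a - N - n) + 1) := by positivity
  nlinarith

end first

end Pool.Agent.H607R3.BN
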