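import Pool.Agent.H607R3.BN.Generic
import Pool.Agent.Helper395.CS.Hyp

open scoped WithZero IntermediateField
open WithZero

set_option linter.unusedSectionVars false
set_option linter.unusedVariables false

namespace Pool.Agent.H607R3.BN

open Pool.Agent.Helper395.CS hiding genus
open Pool.Agent.Helper395.BC

variable {K : Type} [Field K] [Algebra ℂ K]

theorem common_denominator {x : K} (hx : Transcendental ℂ x) {ι : Type} [Fintype ι] (φ : ι → K)
    (hφ : ∀ i, φ i ∈ ℂ⟮x⟯) : ∃ q : Polynomial ℂ, q ≠ 0 ∧ ∀ i, ∃ p : Polynomial ℂ,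
      Polynomial.aeval x q * φ i = Polynomial.aeval x p := by
  classical
  choose p q hq _ hpq using fun i => (mem_adj_iff hx).1 (hφ i)
  refine ⟨∏ i, q i, Finset.prod_ne_zero_iff.2 fun i _ => hq i, fun i => ?_⟩
  refine ⟨p i * ∏ j ∈ Finset.univ.erase i, q j, ?_⟩
  rw [← Finset.mul_prod_erase _ _ (Finset.mem_univ i), map_mul, map_mul, hpq i]
  have := aeval_ne_zero hx (hq i)
  field_simp

theorem exists_eval_ne {q : Polynomial ℂ} (hq : q ≠ 0) : ∃ c : ℂ, q.eval c ≠ 0 := by
  classical
  obtain ⟨c, hc⟩ := Infinite.exists_notMem_finset q.roots.toFinset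
  refine ⟨c, fun h => hc ?_⟩
  rw [Multiset.mem_toFinset, Polynomial.mem_roots hq]
  exact h

/-- the growth of the dimensions -/
theorem growth (hK : IsCurve K) {x : K} (hx : Transcendental ℂ x) (H H' : Submodule ℂ K)
    [FiniteDimensional ℂ H'] (h1 : H ≤ H') (h2 : ∀ h ∈ H, x * h ∈ H') :
    Module.finrank ℂ H + Module.finrank ℂ⟮x⟯ (Submodule.span ℂ⟮x⟯ (H' : Set K)) ≤
      Module.finrank ℂ H' := by
  classical
  have hfin := hK.finiteDimensional hx
  have hH : FiniteDimensional ℂ H := Submodule.finiteDimensional_of_le h1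
  obtain ⟨B, hB, hspan, hli⟩ := exists_linearIndependent ℂ⟮x⟯ (H' : Set K)
  have hBfin : Finite B := hli.finite
  have : Fintype B := Fintype.ofFinite B
  have hcard : Module.finrank ℂ⟮x⟯ (Submodule.span ℂ⟮x⟯ (H' : Set K)) = Fintype.card B := by
    rw [← hspan, ← finrank_span_eq_card hli, Subtype.range_coe]
  let b := Module.finBasis ℂ H
  have hcoord : ∀ j, ∃ f : B → ℂ⟮x⟯, ∑ i, f i • (i : K) = (b j : K) := by
    intro j
    have h3 : (b j : K) ∈ Submodule.span ℂ⟮x⟯ (Set.range (Subtype.val : B → K)) := by
      rw [Subtype.range_coe, hspan]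
      exact Submodule.subset_span (h1 (b j).2)
    exact (Submodule.mem_span_range_iff_exists_fun ℂ⟮x⟯).1 h3
  choose f hf using hcoord
  obtain ⟨q, hq, hqf⟩ := common_denominator hx
    (fun p : Fin (Module.finrank ℂ H) × B => (f p.1 p.2 : K)) (fun p => (f p.1 p.2).2)
  choose P hP using hqf
  obtain ⟨c, hc⟩ := exists_eval_ne hq
  -- every element of `H` has denominator `q`
  have key : ∀ h ∈ H, ∃ R : B → Polynomial ℂ,
      Polynomial.aeval x q * h = ∑ i, Polynomial.aeval x (R i) * (i : K) := by
    intro h hh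
    refine ⟨fun i => ∑ j, Polynomial.C (b.repr ⟨h, hh⟩ j) * P (j, i), ?_⟩
    have h3 : h = ∑ j, (b.repr ⟨h, hh⟩ j) • (b j : K) := by
      have := congrArg H.subtype (b.sum_repr ⟨h, hh⟩)
      rw [map_sum] at this
      exact this.symm
    conv_lhs => rw [h3]
    rw [Finset.mul_sum]
    simp only [map_sum, map_mul, Polynomial.aeval_C, Finset.sum_mul]
    rw [Finset.sum_comm]
    refine Finset.sum_congr rfl fun j _ => ?_
    rw [← hf j, Finset.smul_sum, Finset.mul_sum]
    refine Finset.sum_congr rfl fun i _ => ?_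
    rw [← hP (j, i), Algebra.smul_def, Algebra.smul_def]
    change Polynomial.aeval x q * (algebraMap ℂ K _ * ((f j i : K) * (i : K))) = _
    ring
  let A : (H × (B → ℂ)) →ₗ[ℂ] H' :=
    { toFun := fun z => ⟨(x - algebraMap ℂ K c) * z.1.1 + ∑ i, z.2 i • (i : K), by
        refine add_mem ?_ (sum_mem fun i _ => Submodule.smul_mem _ _ (hB i.2))
        rw [sub_mul]
        refine sub_mem (h2 _ z.1.2) ?_
        rw [← Algebra.smul_def]
        exact Submodule.smul_mem _ _ (h1 z.1.2)⟩
      map_add' := by
        intro z w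
        apply Subtype.ext
        change (x - algebraMap ℂ K c) * (z.1.1 + w.1.1) + ∑ i, (z.2 i + w.2 i) • (i : K) =
          ((x - algebraMap ℂ K c) * z.1.1 + ∑ i, z.2 i • (i : K)) +
          ((x - algebraMap ℂ K c) * w.1.1 + ∑ i, w.2 i • (i : K))
        simp only [add_smul, Finset.sum_add_distrib]
        ring
      map_smul' := by
        intro a z
        apply Subtype.ext
        change (x - algebraMap ℂ K c) * (a • z.1.1) + ∑ i, (a * z.2 i) • (i : K) =
          a • ((x - algebraMap ℂ K c) * z.1.1 + ∑ i, z.2 i • (i : K))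
        rw [smul_add, Finset.smul_sum, mul_smul_comm]
        simp only [mul_smul] }
  have hinj : Function.Injective A := by
    rw [← LinearMap.ker_eq_bot, LinearMap.ker_eq_bot']
    rintro ⟨h, α⟩ hz
    have hz' : (x - algebraMap ℂ K c) * h.1 + ∑ i, α i • (i : K) = 0 := congrArg H'.subtype hz
    obtain ⟨R, hR⟩ := key h.1 h.2
    have h3 : ∑ i : B, Polynomial.aeval x ((Polynomial.X - Polynomial.C c) * R i +
        Polynomial.C (α i) * q) * (i : K) = 0 := by
      have h4 : Polynomial.aeval x q * ((x - algebraMap ℂ K c) * h.1 + ∑ i, α i • (i : K)) = 0 := by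
        rw [hz', mul_zero]
      rw [mul_add, mul_left_comm, hR, Finset.mul_sum, Finset.mul_sum, ← Finset.sum_add_distrib] at h4
      rw [← h4]
      refine Finset.sum_congr rfl fun i _ => ?_
      rw [Algebra.smul_def]
      simp only [map_add, map_mul, map_sub, Polynomial.aeval_X, Polynomial.aeval_C]
      ring
    have h5 : ∀ i : B, Polynomial.aeval x ((Polynomial.X - Polynomial.C c) * R i +
        Polynomial.C (α i) * q) = 0 := by
      have h6 := (Fintype.linearIndependent_iff.1 hli) (fun i => ⟨Polynomial.aeval x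
        ((Polynomial.X - Polynomial.C c) * R i + Polynomial.C (α i) * q), mem_adj _⟩) (by
          rw [← h3]
          refine Finset.sum_congr rfl fun i _ => ?_
          rw [Algebra.smul_def]
          rfl)
      intro i
      exact congrArg (fun z : ℂ⟮x⟯ => (z : K)) (h6 i)
    have h7 : ∀ i : B, (Polynomial.X - Polynomial.C c) * R i + Polynomial.C (α i) * q = 0 := by
      intro i
      by_contra hne
      exact aeval_ne_zero hx hne (h5 i)
    have h8 : ∀ i : B, α i = 0 := by
      intro i
      have := congrArg (Polynomial.eval c) (h7 i)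
      simp only [Polynomial.eval_add, Polynomial.eval_mul, Polynomial.eval_sub, Polynomial.eval_X,
        Polynomial.eval_C, sub_self, zero_mul, zero_add, Polynomial.eval_zero] at this
      exact (mul_eq_zero.1 this).resolve_right hc
    have h9 : (x - algebraMap ℂ K c) * h.1 = 0 := by
      rw [← hz']
      simp [h8]
    have h10 : x - algebraMap ℂ K c ≠ 0 := by
      have := aeval_ne_zero hx (Polynomial.X_sub_C_ne_zero c)
      simpa using this
    have h11 : h = 0 := Subtype.ext ((mul_eq_zero.1 h9).resolve_left h10)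
    rw [h11]
    have : α = 0 := funext h8
    rw [this]
    rfl
  have := LinearMap.finrank_le_finrank_of_injective hinj
  rw [Module.finrank_prod, Module.finrank_fintype_fun_eq_card] at this
  rw [hcard]
  exact this

end Pool.Agent.H607R3.BN
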