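import Pool.Agent.H607R3.BN.Riemann
import Pool.Agent.Helper395.CS.Diff

open scoped WithZero Polynomial IntermediateField
open WithZero

set_option linter.unusedSectionVars false
set_option linter.unusedVariables false

namespace Pool.Agent.H607R3.BN

open Pool.Agent.Helper395.CS hiding genus
open Pool.Agent.Helper395.BC

variable {K : Type} [Field K] [Algebra ℂ K]

section hyp

variable {x y : K} {f : ℂ[X]} {ι : K ≃ₐ[ℂ] K} (H : Hyp x y f ι) {g : ℕ}
  (hf : f.natDegree = 2 * g + 2)

include H hf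

theorem val_y_inf {v : Point K} (hv : 1 < v.val x) : v.val y = v.val x ^ (g + 1) := by
  have h1 : v.val y ^ 2 = (v.val x ^ (g + 1)) ^ 2 := by
    rw [← map_pow, H.eq, val_aeval_inf hv f H.f_ne, hf, ← pow_mul]
    congr 1
    ring
  exact (pow_left_inj₀ zero_le' zero_le' two_ne_zero).1 h1

theorem mem_lineX_hyp (n : ℕ) (z : K) :
    z ∈ H0 (lineX H.curve H.x_ne n) ↔ ∃ p q : ℂ[X], p.degree < ((n + 1 : ℕ) : WithBot ℕ) ∧
      q.degree < ((n - g : ℕ) : WithBot ℕ) ∧
      z = Polynomial.aeval x p + Polynomial.aeval x q * y := by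
  rw [mem_lineX]
  constructor
  · intro hz
    obtain ⟨p, q, hpq⟩ := H.mem_ring (z := z) (by
      intro v hv
      have := hz v
      rwa [max_eq_left hv, one_pow] at this)
    obtain ⟨v, hv⟩ := exists_inf H
    have hbd : ∀ w : Point K, 1 < w.val x → w.val z ≤ w.val x ^ n := by
      intro w hw
      have := hz w
      rwa [max_eq_right hw.le] at this
    obtain ⟨h1, h2⟩ := H.parts_le hpq (mem_adj p) (mem_adj q) v (C := v.val x ^ n) (hbd v hv) (by
      have h3 := hbd (v.comap ι) (by rw [H.comap_x]; exact hv)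
      rwa [H.comap_x] at h3)
    refine ⟨p, q, ?_, ?_, hpq⟩
    · rcases eq_or_ne p 0 with rfl | hp
      · rw [Polynomial.degree_zero]; exact WithBot.bot_lt_coe _
      · rw [val_aeval_inf hv p hp] at h1
        have h3 := (pow_le_pow_iff_right₀ hv).1 h1
        rw [Polynomial.degree_eq_natDegree hp]
        exact_mod_cast Nat.lt_succ_of_le h3
    · rcases eq_or_ne q 0 with rfl | hq
      · rw [Polynomial.degree_zero]; exact WithBot.bot_lt_coe _
      · rw [map_mul, val_aeval_inf hv q hq, val_y_inf H hf hv, ← pow_add] at h2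
        have h3 := (pow_le_pow_iff_right₀ hv).1 h2
        rw [Polynomial.degree_eq_natDegree hq]
        have h4 : q.natDegree < n - g := by omega
        exact_mod_cast h4
  · rintro ⟨p, q, hp, hq, rfl⟩ v
    rcases le_or_gt (v.val x) 1 with hv | hv
    · rw [max_eq_left hv, one_pow]
      refine Valuation.map_add_le _ (aeval_le hv p) ?_
      rw [map_mul]
      exact mul_le_one' (aeval_le hv q) (H.val_y_le hv)
    · rw [max_eq_right hv.le]
      refine Valuation.map_add_le _ ?_ ?_
      · rcases eq_or_ne p 0 with rfl | hp0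
        · simp
        · rw [val_aeval_inf hv p hp0]
          rw [Polynomial.degree_eq_natDegree hp0] at hp
          have h4 : p.natDegree < n + 1 := by exact_mod_cast hp
          exact pow_le_pow_right₀ hv.le (by omega)
      · rcases eq_or_ne q 0 with rfl | hq0
        · simp
        · rw [map_mul, val_aeval_inf hv q hq0, val_y_inf H hf hv, ← pow_add]
          rw [Polynomial.degree_eq_natDegree hq0] at hq
          have h4 : q.natDegree < n - g := by exact_mod_cast hq
          exact pow_le_pow_right₀ hv.le (by omega)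

theorem hZero_lineX_hyp (n : ℕ) :
    hZero (lineX H.curve H.x_ne n) = (n + 1 : ℕ) + (n - g : ℕ) := by
  let Φ : (Polynomial.degreeLT ℂ (n + 1) × Polynomial.degreeLT ℂ (n - g)) →ₗ[ℂ] K :=
    { toFun := fun a => Polynomial.aeval x a.1.1 + Polynomial.aeval x a.2.1 * y
      map_add' := by
        intro a b
        simp only [Prod.fst_add, Prod.snd_add, Submodule.coe_add, map_add]
        ring
      map_smul' := by
        intro c a
        simp only [Prod.smul_fst, Prod.smul_snd, Submodule.coe_smul, map_smul, RingHom.id_apply]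
        rw [smul_add, smul_mul_assoc] }
  have hinj : Function.Injective Φ := by
    rw [← LinearMap.ker_eq_bot, eq_bot_iff]
    rintro ⟨p, q⟩ h
    have h1 : Polynomial.aeval x p.1 + Polynomial.aeval x q.1 * y = 0 := h
    obtain ⟨h2, h3⟩ := H.coeff_zero (mem_adj _) (mem_adj _) h1
    have h4 : p.1 = 0 := by
      by_contra hp
      exact aeval_ne_zero H.trans hp h2
    have h5 : q.1 = 0 := by
      by_contra hp
      exact aeval_ne_zero H.trans hp h3
    exact (Submodule.mem_bot ℂ).2 (Prod.ext (Subtype.ext h4) (Subtype.ext h5))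
  have hrange : LinearMap.range Φ = H0 (lineX H.curve H.x_ne n) := by
    ext z
    rw [mem_lineX_hyp H hf]
    constructor
    · rintro ⟨⟨p, q⟩, rfl⟩
      exact ⟨p.1, q.1, Polynomial.mem_degreeLT.1 p.2, Polynomial.mem_degreeLT.1 q.2, rfl⟩
    · rintro ⟨p, q, hp, hq, rfl⟩
      exact ⟨(⟨p, Polynomial.mem_degreeLT.2 hp⟩, ⟨q, Polynomial.mem_degreeLT.2 hq⟩), rfl⟩
  have e1 := (Polynomial.degreeLTEquiv ℂ (n + 1)).finrank_eq
  have e2 := (Polynomial.degreeLTEquiv ℂ (n - g)).finrank_eq
  have i1 : FiniteDimensional ℂ (Polynomial.degreeLT ℂ (n + 1)) :=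
    (Polynomial.degreeLTEquiv ℂ (n + 1)).symm.finiteDimensional
  have i2 : FiniteDimensional ℂ (Polynomial.degreeLT ℂ (n - g)) :=
    (Polynomial.degreeLTEquiv ℂ (n - g)).symm.finiteDimensional
  have h1 := LinearMap.finrank_range_of_inj hinj
  rw [hrange, Module.finrank_prod, e1, e2, Module.finrank_fin_fun, Module.finrank_fin_fun] at h1
  unfold hZero
  rw [h1]
  push_cast
  ring

theorem phi_lineX_hyp {n : ℕ} (hn : g ≤ n) : phi (lineX H.curve H.x_ne n) = (g : ℤ) - 1 := by
  unfold phi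
  rw [hZero_lineX_hyp H hf, lineX_degree, H.degP_x]
  push_cast [Nat.cast_sub hn]
  ring

theorem phi_le_hyp (M : LineBundle K) : phi M ≤ (g : ℤ) - 1 := by
  have hK := H.curve
  set A := lsup M (one K) with hA
  have hAv : ∀ v : Point K, v.val (A.frame v : K) = max (v.val (M.frame v : K)) 1 := by
    intro v
    rw [hA, lsup_val]
    congr 1
    change v.val (((1 : Kˣ) : Kˣ) : K) = 1
    rw [Units.val_one, map_one]
  have hA0 : 0 ≤ A.degree := eff_degree hK (eff_iff.2 fun v => by
    rw [hAv]; exact le_max_right _ _)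
  obtain ⟨n, hn⟩ : ∃ n : ℕ, g + A.degree.toNat < n := ⟨_, Nat.lt_succ_self _⟩
  set N := lmul (lineX hK H.x_ne n) (linv A) with hN
  have hNv : ∀ v : Point K, v.val (N.frame v : K) =
      v.val ((lineX hK H.x_ne n).frame v : K) * (v.val (A.frame v : K))⁻¹ := by
    intro v
    rw [hN, lmul_val, linv_val]
  have hsub : Sub N (lineX hK H.x_ne n) := by
    rw [sub_iff]
    intro v
    rw [hNv]
    refine mul_le_of_le_one_right' ?_
    apply inv_le_one_of_one_le₀
    rw [hAv]
    exact le_max_right _ _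
  have h1 := hZero_le' hK hsub
  have h2 : N.degree = (lineX hK H.x_ne n).degree - A.degree := by
    rw [hN, lmul_degree, linv_degree]; ring
  have h3 := phi_lineX_hyp H hf (n := n) (by omega)
  have h4 : (lineX hK H.x_ne n).degree = n * 2 := by rw [lineX_degree, H.degP_x]
  have h5 : 0 < hZero N := by
    unfold phi at h3
    omega
  obtain ⟨z, hz, hz0⟩ := exists_section hK h5
  have h6 : Sub (lscale hK M hz0) (lineX hK H.x_ne n) := by
    rw [sub_iff]
    intro v
    rw [lscale_val]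
    have h7 : v.val z ≤ v.val (N.frame v : K) := hz v
    rw [hNv] at h7
    have h8 : v.val (M.frame v : K) ≤ v.val (A.frame v : K) := by
      rw [hAv]; exact le_max_left _ _
    have h9 : v.val (A.frame v : K) ≠ 0 := v.val_ne_zero (A.frame v).ne_zero
    calc v.val (M.frame v : K) * v.val z ≤ v.val (A.frame v : K) *
        (v.val ((lineX hK H.x_ne n).frame v : K) * (v.val (A.frame v : K))⁻¹) :=
          mul_le_mul' h8 h7
      _ = v.val ((lineX hK H.x_ne n).frame v : K) := by
          rw [mul_comm (v.val ((lineX hK H.x_ne n).frame v : K)), mul_inv_cancel_left₀ h9]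
  have h7 := phi_mono hK h6
  rw [h3] at h7
  unfold phi at h7 ⊢
  rwa [lscale_degree, hZero_lscale] at h7

/-- the genus of the hyperelliptic curve `y² = f(x)`, `deg f = 2 g + 2` -/
theorem genus_hyp : (genus K : ℤ) = g := by
  have h1 := phi_lineX_hyp H hf (n := g) le_rfl
  have h2 := genus_eq_of_max H.curve (lineX H.curve H.x_ne g) (fun M => by
    rw [h1]; exact phi_le_hyp H hf M)
  rw [h2, h1]
  ring

theorem hasSeries_hyp (r d : ℤ) (hr : 0 ≤ r) (hd : 2 * r ≤ d) :
    ∃ L : LineBundle K, L.degree = d ∧ r + 1 ≤ hZero L := by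
  have hK := H.curve
  obtain ⟨v⟩ := point_nonempty hK
  have hadd : ∀ (k : ℕ) (L : LineBundle K), ∃ M : LineBundle K, Sub L M ∧
      M.degree = L.degree + k := by
    intro k
    induction k with
    | zero => exact fun L => ⟨L, Sub.refl L, by simp⟩
    | succ n ih =>
      intro L
      obtain ⟨M, h1, h2⟩ := ih L
      exact ⟨lmul M (lpt v), h1.trans (le_lmul_lpt M v), by
        rw [lmul_degree, lpt_degree, h2]; push_cast; ring⟩
  obtain ⟨M, h1, h2⟩ := hadd (d - 2 * r).toNat (lineX hK H.x_ne r.toNat)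
  refine ⟨M, ?_, ?_⟩
  · rw [h2, lineX_degree, H.degP_x]
    omega
  · have h3 := hZero_mono' hK h1
    rw [hZero_lineX_hyp H hf] at h3
    push_cast at h3
    omega

end hyp

/-! ### the model -/

section model

variable (g : ℕ)

/-- the polynomial `X ^ (2 g + 2) + 1` -/
noncomputable def fg : ℂ[X] := Polynomial.X ^ (2 * g + 2) + 1

theorem fg_natDegree : (fg g).natDegree = 2 * g + 2 := by
  rw [fg, ← Polynomial.C_1]
  exact Polynomial.natDegree_X_pow_add_C

theorem fg_separable : (fg g).Separable := by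
  have h1 : fg g = Polynomial.X ^ (2 * g + 2) - Polynomial.C (-1) := by
    rw [fg, map_neg, sub_neg_eq_add, Polynomial.C_1]
  rw [h1]
  refine Polynomial.separable_X_pow_sub_C _ ?_ ?_
  · exact_mod_cast (Nat.succ_ne_zero (2 * g + 1))
  · norm_num

/-- `fg` as a rational function -/
noncomputable def Fg : RatFunc ℂ := algebraMap ℂ[X] (RatFunc ℂ) (fg g)

/-- the polynomial `Y ^ 2 - (X ^ (2 g + 2) + 1)` -/
noncomputable def Pg : (RatFunc ℂ)[X] := Polynomial.X ^ 2 - Polynomial.C (Fg g)

theorem Fg_not_sq (b : RatFunc ℂ) : b ^ 2 ≠ Fg g := by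
  intro h
  have h1 : IsIntegral ℂ[X] (b ^ 2) := by
    rw [h]
    exact isIntegral_algebraMap
  obtain ⟨p, rfl⟩ := IsIntegrallyClosed.exists_algebraMap_eq_of_isIntegral_pow (R := ℂ[X])
    (K := RatFunc ℂ) (n := 2) (by norm_num) h1
  rw [← map_pow] at h
  have h2 : p ^ 2 = fg g := IsFractionRing.injective ℂ[X] (RatFunc ℂ) h
  have h3 : IsUnit p := (fg_separable g).squarefree p (by rw [← h2, pow_two])
  have h4 := Polynomial.natDegree_eq_zero_of_isUnit h3
  have h5 := fg_natDegree g
  rw [← h2, Polynomial.natDegree_pow, h4] at h5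
  omega

theorem Pg_irreducible : Irreducible (Pg g) :=
  X_pow_sub_C_irreducible_of_prime Nat.prime_two fun b => Fg_not_sq g b

instance Pg_fact : Fact (Irreducible (Pg g)) := ⟨Pg_irreducible g⟩

/-- the function field of `y² = x ^ (2 g + 2) + 1` -/
abbrev Kg : Type := AdjoinRoot (Pg g)

/-- the coordinate function `x` -/
noncomputable def xg : Kg g := algebraMap (RatFunc ℂ) (Kg g) RatFunc.X

/-- the coordinate function `y` -/
noncomputable def yg : Kg g := AdjoinRoot.root (Pg g)

theorem aeval_xg (p : ℂ[X]) : Polynomial.aeval (xg g) p =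
    algebraMap (RatFunc ℂ) (Kg g) (algebraMap ℂ[X] (RatFunc ℂ) p) := by
  have h1 : xg g = algebraMap (RatFunc ℂ) (Kg g) (algebraMap ℂ[X] (RatFunc ℂ) Polynomial.X) := by
    rw [xg, RatFunc.algebraMap_X]
  rw [h1, Polynomial.aeval_algebraMap_apply, Polynomial.aeval_algebraMap_apply,
    Polynomial.aeval_X_left_apply]

theorem yg_sq : (yg g) ^ 2 = Polynomial.aeval (xg g) (fg g) := by
  rw [aeval_xg]
  have h := AdjoinRoot.eval₂_root (Pg g)
  rw [Pg, Polynomial.eval₂_sub, Polynomial.eval₂_X_pow, Polynomial.eval₂_C, sub_eq_zero] at h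
  exact h

theorem xg_transcendental : Transcendental ℂ (xg g) := by
  rw [transcendental_iff]
  intro p hp
  rw [aeval_xg] at hp
  rw [← map_zero (algebraMap (RatFunc ℂ) (Kg g))] at hp
  have h1 := (algebraMap (RatFunc ℂ) (Kg g)).injective hp
  rw [← map_zero (algebraMap ℂ[X] (RatFunc ℂ))] at h1
  exact IsFractionRing.injective ℂ[X] (RatFunc ℂ) h1

theorem Pg_monic : (Pg g).Monic := Polynomial.monic_X_pow_sub_C _ (by norm_num)

instance Kg_finite : Module.Finite (RatFunc ℂ) (Kg g) := (Pg_monic g).finite_adjoinRoot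

theorem Kg_isCurve : IsCurve (Kg g) where
  fg := by
    rw [IntermediateField.fg_top_iff]
    have h1 : Algebra.EssFiniteType ℂ[X] (RatFunc ℂ) :=
      Algebra.EssFiniteType.of_isLocalization _ (nonZeroDivisors ℂ[X])
    have h2 : Algebra.EssFiniteType ℂ (RatFunc ℂ) := Algebra.EssFiniteType.comp ℂ ℂ[X] (RatFunc ℂ)
    exact Algebra.EssFiniteType.comp ℂ (RatFunc ℂ) (Kg g)
  trdeg := by
    have h1 := trdeg_add_eq ℂ (RatFunc ℂ) (A := Kg g)
    have h2 := trdeg_add_eq ℂ ℂ[X] (A := RatFunc ℂ)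
    have h3 : Algebra.IsAlgebraic (RatFunc ℂ) (Kg g) := Algebra.IsAlgebraic.of_finite _ _
    have h4 : Algebra.IsAlgebraic ℂ[X] (RatFunc ℂ) := IsLocalization.isAlgebraic _ (nonZeroDivisors ℂ[X])
    rw [trdeg_eq_zero (R := RatFunc ℂ), add_zero] at h1
    rw [trdeg_eq_zero (R := ℂ[X]), add_zero] at h2
    rw [← h1, ← h2, Polynomial.trdeg_of_isDomain]

/-- the hyperelliptic involution, over `ℂ(x)` -/
noncomputable def ιg' : Kg g →ₐ[RatFunc ℂ] Kg g :=
  AdjoinRoot.liftAlgHom (Pg g) (Algebra.ofId (RatFunc ℂ) (Kg g)) (-(yg g)) (by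
    change Polynomial.eval₂ _ _ (Polynomial.X ^ 2 - Polynomial.C (Fg g)) = 0
    rw [Polynomial.eval₂_sub, Polynomial.eval₂_X_pow, Polynomial.eval₂_C, neg_sq, yg_sq,
      aeval_xg, sub_eq_zero]
    rfl)

theorem ιg'_y : ιg' g (yg g) = -(yg g) :=
  AdjoinRoot.liftAlgHom_root _ _ _ _

theorem ιg'_comp : (ιg' g).comp (ιg' g) = AlgHom.id (RatFunc ℂ) (Kg g) := by
  apply AdjoinRoot.algHom_ext
  change ιg' g (ιg' g (yg g)) = yg g
  rw [ιg'_y, map_neg, ιg'_y, neg_neg]

/-- the hyperelliptic involution -/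
noncomputable def ιg : Kg g ≃ₐ[ℂ] Kg g :=
  (AlgEquiv.ofAlgHom (ιg' g) (ιg' g) (ιg'_comp g) (ιg'_comp g)).restrictScalars ℂ

theorem algebraMap_mem_g (a : RatFunc ℂ) : algebraMap (RatFunc ℂ) (Kg g) a ∈ ℂ⟮xg g⟯ := by
  rw [← RatFunc.num_div_denom a, map_div₀, ← aeval_xg, ← aeval_xg]
  exact div_mem (mem_adj _) (mem_adj _)

theorem spang (z : Kg g) : ∃ a ∈ ℂ⟮xg g⟯, ∃ b ∈ ℂ⟮xg g⟯, z = a + b * yg g := by
  obtain ⟨p, rfl⟩ := AdjoinRoot.mk_surjective z
  have h1 := Polynomial.modByMonic_add_div p (Pg g)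
  have hdeg : (p %ₘ Pg g).natDegree < 2 := by
    have := Polynomial.natDegree_modByMonic_lt p (Pg_monic g) (by
      intro h
      have := congrArg Polynomial.natDegree h
      rw [Pg, Polynomial.natDegree_X_pow_sub_C, Polynomial.natDegree_one] at this
      omega)
    rwa [Pg, Polynomial.natDegree_X_pow_sub_C] at this
  obtain ⟨a, b, hab⟩ := Polynomial.exists_eq_X_add_C_of_natDegree_le_one (Nat.lt_succ_iff.1 hdeg)
  refine ⟨_, algebraMap_mem_g g b, _, algebraMap_mem_g g a, ?_⟩
  rw [← h1, hab, map_add, map_add, map_mul, map_mul, AdjoinRoot.mk_self, zero_mul, add_zero,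
    AdjoinRoot.mk_X, AdjoinRoot.mk_C, AdjoinRoot.mk_C, add_comm]
  rfl

theorem hypg : Hyp (xg g) (yg g) (fg g) (ιg g) where
  curve := Kg_isCurve g
  trans := xg_transcendental g
  eq := yg_sq g
  sep := fg_separable g
  span := spang g
  inv_x := by
    change ιg' g (algebraMap (RatFunc ℂ) (Kg g) RatFunc.X) = _
    rw [AlgHom.commutes]
    rfl
  inv_y := ιg'_y g

end model

/-- hyperelliptic curves carry every `g^r_d` with `d ≥ 2 r` -/
theorem locus_nonempty (g r d : ℤ) (hg : 0 ≤ g) (hr : 0 ≤ r) (hd : 2 * r ≤ d) :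
    (locus g r d).Nonempty := by
  refine ⟨⟨Kg g.toNat, Kg_isCurve g.toNat⟩, ?_, ?_⟩
  · have := genus_hyp (hypg g.toNat) (fg_natDegree g.toNat)
    change ((genus (Kg g.toNat) : ℕ) : ℤ) = g
    rw [this]
    omega
  · exact hasSeries_hyp (hypg g.toNat) (fg_natDegree g.toNat) r d hr hd

end Pool.Agent.H607R3.BN
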