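import Pool.Agent.H607R3.BN.Hyper

/-!
# Containments between Brill-Noether loci of small Clifford index
-/

namespace Pool.Agent.H607R3.BN

/-- `M^r_{g, 2r + δ} ⊆ M^s_{g, δ + 2s}` for `g > (2δ + 2s - 1)(δ + s)` -/
theorem locus_subset (g r s δ : ℤ) (hs : 1 ≤ s) (hr : s ≤ r) (hδ : 0 ≤ δ) (hd : 2 * r + δ ≤ g - 1)
    (hg : (2 * δ + 2 * s - 1) * (δ + s) < g) :
    locus g r (2 * r + δ) ⊆ locus g s (δ + 2 * s) := by
  rintro C ⟨hC, L, hL, hh⟩
  have hC' : (Pool.Agent.Helper395.BC.genus C.K : ℤ) = g := hC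
  have hg0 : Pool.Agent.Helper395.BC.genus C.K ≠ 0 := by
    intro h0
    rw [h0] at hC'
    push_cast at hC'
    omega
  refine ⟨hC, ?_⟩
  exact small_clifford C.isCurve hg0 δ s hδ hs (by rw [hC']; exact hg) L.degree.toNat L
    (by omega) (by rw [hC', hL]; omega) (by rw [hL]; omega) (by omega)

theorem rho_small (g s δ : ℤ) (hs : 2 ≤ s) (hδ : 0 ≤ δ)
    (hg : (2 * δ + 2 * s - 1) * (δ + s) < g) : rho g s (δ + 2 * s) < 0 := by
  unfold rho
  have h1 : 0 ≤ (2 * δ + 2 * s - 1 - 3) * (δ + s) := mul_nonneg (by omega) (by omega)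
  have h2 : 3 * (δ + s) < g := by nlinarith
  have h3 : 0 < s * (g - 3 * (δ + s)) := mul_pos (by omega) (by omega)
  have h4 : 0 ≤ (s - 1) * (δ + s) := mul_nonneg (by omega) (by omega)
  nlinarith

theorem rho_large (g r s δ : ℤ) (hs : 2 ≤ s) (hr : s ≤ r) (hδ : 0 ≤ δ) (hd : 2 * r + δ ≤ g - 1)
    (hg : (2 * δ + 2 * s - 1) * (δ + s) < g) : rho g r (2 * r + δ) < 0 := by
  unfold rho
  have h1 : 0 ≤ (2 * δ + 2 * s - 1 - 3) * (δ + s) := mul_nonneg (by omega) (by omega)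
  have h2 : 3 * (δ + s) < g := by nlinarith
  -- `m = g - r - δ`
  have h3 : δ < g - r - δ - 1 := by omega
  have h4 : 0 ≤ (r - 1) * (g - r - δ - 1) := mul_nonneg (by omega) (by omega)
  nlinarith

end Pool.Agent.H607R3.BN
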