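import Pool.Agent.H607R3.BN.Descent

open scoped WithZero IntermediateField
open WithZero

set_option linter.unusedSectionVars false
set_option linter.unusedVariables false

namespace Pool.Agent.H607R3.BN

open Pool.Agent.Helper395.CS hiding genus
open Pool.Agent.Helper395.BC

variable {K : Type} [Field K] [Algebra ℂ K]

theorem finite_vanish (hK : IsCurve K) (v : Point K) (U U' : Submodule ℂ K)
    [FiniteDimensional ℂ U'] {l : K} (hl : l ≠ 0) (hU : ∀ u ∈ U, v.val u ≤ v.val l)
    (hU' : ∀ u ∈ U, v.val u < v.val l → u ∈ U') : FiniteDimensional ℂ U := by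
  have hpos : 0 < v.val l := zero_lt_iff.2 (v.val_ne_zero hl)
  have hint : ∀ u : U, v.val (u.1 / l) ≤ 1 := fun u => by
    rw [map_div₀]
    exact (div_le_one₀ hpos).2 (hU u.1 u.2)
  let φ : U →ₗ[ℂ] ℂ :=
    { toFun := fun u => resHom hK v ⟨u.1 / l, hint u⟩
      map_add' := by
        intro a b
        rw [← map_add]
        congr 1
        exact Subtype.ext (add_div _ _ _)
      map_smul' := by
        intro c a
        have h1 : (⟨(c • a).1 / l, hint (c • a)⟩ : v.val.integer) =
            ⟨algebraMap ℂ K c, v.const_le c⟩ * ⟨a.1 / l, hint a⟩ := by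
          apply Subtype.ext
          change (c • a.1) / l = algebraMap ℂ K c * (a.1 / l)
          rw [Algebra.smul_def, mul_div_assoc]
        rw [h1, map_mul, resHom_const]
        rfl }
  have hker : ∀ u : U, u ∈ LinearMap.ker φ → u.1 ∈ U' := by
    intro u hu
    have h1 : resHom hK v ⟨u.1 / l, hint u⟩ = 0 := hu
    rw [resHom_eq_zero_iff] at h1
    apply hU' _ u.2
    change v.val (u.1 / l) < 1 at h1
    rwa [map_div₀, div_lt_one₀ hpos] at h1
  have h4 : FiniteDimensional ℂ (LinearMap.ker φ) := by
    let ψ : LinearMap.ker φ →ₗ[ℂ] U' :=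
      { toFun := fun u => ⟨u.1.1, hker u.1 u.2⟩
        map_add' := fun _ _ => rfl
        map_smul' := fun _ _ => rfl }
    have hψ : Function.Injective ψ := by
      intro a b hab
      have : a.1.1 = b.1.1 := congrArg (fun z : U' => (z : K)) hab
      exact Subtype.ext (Subtype.ext this)
    exact Module.Finite.of_injective ψ hψ
  have h5 : FiniteDimensional ℂ (U ⧸ LinearMap.ker φ) := φ.quotKerEquivRange.symm.finiteDimensional
  exact Module.Finite.of_submodule_quotient (LinearMap.ker φ)

theorem H0_fin' (hK : IsCurve K) (L : LineBundle K) : FiniteDimensional ℂ (H0 L) := by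
  have key : ∀ (n : ℕ) (L : LineBundle K), L.degree < n → FiniteDimensional ℂ (H0 L) := by
    intro n
    induction n with
    | zero =>
      intro L hL
      rw [H0_eq_bot hK (by simpa using hL)]
      infer_instance
    | succ n ih =>
      intro L hL
      obtain ⟨v⟩ := point_nonempty hK
      have := ih (lsub L v) (by rw [lsub_degree]; push_cast at hL; omega)
      refine finite_vanish hK v (H0 L) (H0 (lsub L v)) (L.frame v).ne_zero (fun u hu => hu v) ?_
      intro u hu hlt w
      rcases eq_or_ne w v with rfl | hw
      · rw [mem_lsub_self]; exact hlt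
      · rw [mem_lsub_ne L hw]; exact hu w
  exact key (L.degree.toNat + 1) L (by push_cast; omega)

theorem hZero_mono' (hK : IsCurve K) {L M : LineBundle K} (h : Sub L M) : hZero L ≤ hZero M := by
  have := H0_fin' hK M
  unfold hZero
  exact_mod_cast Submodule.finrank_mono (H0_mono h)

theorem hZero_lsub (hK : IsCurve K) (L : LineBundle K) (v : Point K) :
    hZero L ≤ hZero (lsub L v) + 1 := by
  have := H0_fin' hK L
  have h := finrank_vanish hK v (H0 L) (H0 (lsub L v)) (L.frame v).ne_zero (fun u hu => hu v) (by
    intro u hu hlt w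
    rcases eq_or_ne w v with rfl | hw
    · rw [mem_lsub_self]; exact hlt
    · rw [mem_lsub_ne L hw]; exact hu w) (H0_mono (lsub_sub L v))
  unfold hZero
  exact_mod_cast h

/-- a proper inclusion factors through the removal of a point -/
theorem exists_lsub (hK : IsCurve K) {L M : LineBundle K} (h : Sub L M)
    (hd : L.degree < M.degree) : ∃ v : Point K, Sub L (lsub M v) := by
  have h1 : ∃ v : Point K, v.val (L.frame v : K) ≠ v.val (M.frame v : K) := by
    by_contra hcon
    push Not at hcon
    have := degree_congr hcon
    omega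
  obtain ⟨v, hv⟩ := h1
  refine ⟨v, ?_⟩
  have h2 := lt_of_le_of_ne (sub_iff.1 h v) hv
  intro w s hs
  rcases eq_or_ne w v with rfl | hw
  · rw [mem_lsub_self]
    exact lt_of_le_of_lt hs h2
  · rw [mem_lsub_ne M hw]
    exact h w s hs

theorem hZero_le' (hK : IsCurve K) {L M : LineBundle K} (h : Sub L M) :
    hZero M ≤ hZero L + (M.degree - L.degree) := by
  have key : ∀ (n : ℕ) (M : LineBundle K), Sub L M → M.degree = L.degree + n →
      hZero M ≤ hZero L + n := by
    intro n
    induction n with
    | zero =>
      intro M h hd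
      have h1 := lstalk_eq_of_degree_eq hK h (by simpa using hd.symm)
      rw [hZero_congr h1]
      simp
    | succ n ih =>
      intro M h hd
      obtain ⟨v, hv⟩ := exists_lsub hK h (by push_cast at hd; omega)
      have h1 := ih (lsub M v) hv (by rw [lsub_degree, hd]; push_cast; ring)
      have h2 := hZero_lsub hK M v
      push_cast
      omega
  have h1 := degree_mono hK h
  have := key (M.degree - L.degree).toNat M h (by omega)
  omega

/-- `deg L - h⁰(L)` -/
noncomputable def phi (L : LineBundle K) : ℤ := L.degree - hZero L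

theorem phi_mono (hK : IsCurve K) {L M : LineBundle K} (h : Sub L M) : phi L ≤ phi M := by
  have := hZero_le' hK h
  unfold phi
  omega

/-- if `h⁰` grows by the full degree then `Om1` does not change -/
theorem om1_mono (hK : IsCurve K) {L M : LineBundle K} (h : Sub L M) (hφ : phi M ≤ phi L) :
    Om1 L ≤ Om1 M := by
  have key : ∀ (n : ℕ) (M : LineBundle K), Sub L M → phi M ≤ phi L → M.degree = L.degree + n →
      Om1 L ≤ Om1 M := by
    intro n
    induction n with
    | zero =>
      intro M h _ hd w hw
      have h1 := lstalk_eq_of_degree_eq hK h (by simpa using hd.symm)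
      refine ⟨hw.1, fun r hr => hw.2 r fun v => ?_⟩
      rw [h1 v]
      exact hr v
    | succ n ih =>
      intro M h hφ hd
      obtain ⟨v, hv⟩ := exists_lsub hK h (by push_cast at hd; omega)
      have h0 := phi_mono hK hv
      have h0' := phi_mono hK (lsub_sub M v)
      have h1 := ih (lsub M v) hv (by omega) (by rw [lsub_degree, hd]; push_cast; ring)
      refine h1.trans ?_
      have h2 : hZero (lsub M v) < hZero M := by
        unfold phi at *
        rw [lsub_degree] at *
        omega
      unfold hZero at h2
      obtain ⟨f, hf, hfv⟩ := exists_generator M v (by exact_mod_cast h2)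
      have hf0 : f ≠ 0 := by
        rintro rfl
        rw [map_zero] at hfv
        exact (frame_pos M v).ne hfv
      rintro w ⟨hw1, hw2⟩
      refine ⟨hw1, fun r hr => ?_⟩
      -- subtract a multiple of `f`
      have h3 : v.val (r.1 v / f) ≤ 1 := by
        rw [map_div₀, hfv]
        exact (div_le_one₀ (frame_pos M v)).2 (hr v)
      obtain ⟨c, hc⟩ := exists_res hK v h3
      have hfr : (fun _ : Point K => f) ∈ repartitions K := finite_not_reg hK f
      have h4 : w (r - c • ⟨fun _ => f, hfr⟩) = 0 := by
        apply hw2
        intro u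
        change r.1 u - c • f ∈ _
        have h5 : r.1 u - c • f ∈ M.stalk u := by
          change u.val _ ≤ _
          have h6 : u.val (c • f) ≤ u.val (M.frame u : K) := by
            rw [Algebra.smul_def, map_mul]
            exact (mul_le_of_le_one_left' (u.const_le c)).trans (hf u)
          exact (u.val.map_sub _ _).trans (max_le (hr u) h6)
        rcases eq_or_ne u v with rfl | hu
        · rw [mem_lsub_self, ← hfv]
          have h6 : r.1 u - c • f = (r.1 u / f - algebraMap ℂ K c) * f := by
            rw [Algebra.smul_def, sub_mul, div_mul_cancel₀ _ hf0]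
          rw [h6, map_mul]
          exact mul_lt_of_lt_one_left (by rw [hfv]; exact frame_pos M u) hc
        · rw [mem_lsub_ne M hu]
          exact h5
      rw [map_sub, map_smul, hw1 ⟨fun _ => f, hfr⟩ ⟨f, fun _ => rfl⟩, smul_zero, sub_zero] at h4
      exact h4
  have h1 := degree_mono hK h
  exact key (M.degree - L.degree).toNat M h hφ (by omega)

/-- a line bundle containing a given one and a given repartition -/
theorem exists_contain (L : LineBundle K) (r : repartitions K) :
    ∃ M : LineBundle K, Sub L M ∧ ∀ v, r.1 v ∈ M.stalk v := by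
  classical
  have hr : {v : Point K | ¬ v.val (r.1 v) ≤ 1}.Finite := r.2
  refine ⟨⟨fun v => if h : v.val (r.1 v) ≤ v.val (L.frame v : K) then L.frame v else
    Units.mk0 (r.1 v) (fun h0 => h (by rw [h0, map_zero]; exact (frame_pos L v).le)),
    (L.finite.union hr).subset fun v hv => ?_⟩, ?_, ?_⟩
  · by_contra hcon
    simp only [Set.mem_union, Set.mem_ofPred_eq, not_or, not_not] at hcon
    apply hv
    have h1 : v.val (r.1 v) ≤ v.val (L.frame v : K) := by rw [hcon.1]; exact hcon.2
    simp only [dif_pos h1]
    exact hcon.1
  · rw [sub_iff]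
    intro v
    change _ ≤ v.val ((if h : v.val (r.1 v) ≤ v.val (L.frame v : K) then L.frame v else
      Units.mk0 (r.1 v) _ : Kˣ) : K)
    split_ifs with h
    · exact le_rfl
    · rw [Units.val_mk0]
      exact (not_le.1 h).le
  · intro v
    change v.val (r.1 v) ≤ v.val ((if h : v.val (r.1 v) ≤ v.val (L.frame v : K) then L.frame v else
      Units.mk0 (r.1 v) _ : Kˣ) : K)
    split_ifs with h
    · exact h
    · rw [Units.val_mk0]

/-- the genus is the maximum of `deg L - h⁰(L) + 1` -/
theorem genus_eq_of_max (hK : IsCurve K) (M0 : LineBundle K) (hmax : ∀ M : LineBundle K, phi M ≤ phi M0) :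
    (genus K : ℤ) = phi M0 + 1 := by
  have h1 : Om1 M0 = ⊥ := by
    rw [eq_bot_iff]
    intro w hw
    rw [Submodule.mem_bot]
    refine LinearMap.ext fun r => ?_
    obtain ⟨M, hM, hr⟩ := exists_contain M0 r
    exact (om1_mono hK hM (hmax M) hw).2 r hr
  have h2 : LHasChi M0 (hZero M0) := by
    refine ⟨H0_fin' hK M0, ?_, ?_⟩
    · rw [h1]; infer_instance
    · rw [h1, finrank_bot]
      unfold hZero
      simp
  have h3 := hasChi_of_hasChi hK (hasChi_lsum h2 1) (F := lsum (one K) 1)
  rw [lsum_degree, lsum_degree, one_degree] at h3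
  have h4 := lHasChi_of_lsum h3
  obtain ⟨h5, h6, h7⟩ := h4
  have e := Submodule.dualQuotEquivDualAnnihilator
    ((integralRepartitions K ⊔ principalRepartitions K).comap (repartitions K).subtype)
  rw [← om1_one_eq] at e
  have h8 : Module.finrank ℂ (Om1 (one K)) = genus K := by
    rw [← e.finrank_eq, Subspace.dual_finrank_eq]
    rfl
  rw [h8, (H0_one hK).2] at h7
  unfold phi
  push_cast at h7
  linarith

end Pool.Agent.H607R3.BN
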